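import Pool.Agent.NH15.CT.W3

set_option autoImplicit false

/-! The concentration theorem for an abstract sequence of functions whose truncations have the mean `1` for all the
weights which belong to the earlier functions. -/

namespace Pool.Agent.NH15.CT.V

open Finset Filter
open Pool.Agent.NH15.CT

/-- the exceptional points -/
noncomputable def RR (ε : ℝ) (A : Finset ℕ) (k : ℕ) (Z : ℕ → ℕ → ℝ) : Finset ℕ := by
  classical
  exact A.filter fun a => ε / 2 * k < |∑ i ∈ range k, Z i a - k|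

/-- the points with large values -/
noncomputable def XX (M : ℝ) (I : Finset ℕ) (k : ℕ) (Z : ℕ → ℕ → ℝ) : Finset ℕ := by
  classical
  exact (range k).biUnion fun i => I.filter fun a => M < Z i a

lemma XX_card (M : ℝ) (I : Finset ℕ) (k : ℕ) (Z : ℕ → ℕ → ℝ) (e : ℝ)
    (hE : ∀ i < k, ∀ E : Finset ℕ, E ⊆ I → (∀ a ∈ E, M < Z i a) → (E.card : ℝ) ≤ e) :
    ((XX M I k Z).card : ℝ) ≤ k * e := by
  classical
  have h1 : ((XX M I k Z).card : ℝ) ≤ ∑ i ∈ range k, ((I.filter fun a => M < Z i a).card : ℝ) := by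
    unfold XX
    exact_mod_cast card_biUnion_le
  refine h1.trans ?_
  calc _ ≤ ∑ _i ∈ range k, e := by
        apply sum_le_sum
        intro i hi
        apply hE i (mem_range.1 hi) _ (filter_subset _ _)
        intro a ha
        exact (mem_filter.1 ha).2
    _ = _ := by rw [sum_const, card_range, nsmul_eq_mul]

lemma eq_of_not (M : ℝ) (I A : Finset ℕ) (hA : A ⊆ I) (k : ℕ) (Z : ℕ → ℕ → ℝ) (a : ℕ) (ha : a ∈ A)
    (h : a ∉ XX M I k Z) (i : ℕ) (hi : i < k) : min (Z i a) M = Z i a := by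
  classical
  unfold XX at h
  rw [mem_biUnion] at h
  push Not at h
  have h1 := h i (mem_range.2 hi)
  rw [mem_filter, not_and, not_lt] at h1
  exact min_eq_left (h1 (hA ha))

lemma RR_sub (ε M : ℝ) (I A : Finset ℕ) (hA : A ⊆ I) (k : ℕ) (Z : ℕ → ℕ → ℝ) :
    RR ε A k Z ⊆ A.filter (fun a => ε / 2 * k < |∑ i ∈ range k, min (Z i a) M - k|) ∪ XX M I k Z := by
  classical
  intro a ha
  unfold RR at ha
  rw [mem_filter] at ha
  rw [mem_union]
  by_cases h : a ∈ XX M I k Z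
  · exact Or.inr h
  · left
    rw [mem_filter]
    refine ⟨ha.1, ?_⟩
    have h3 : ∑ i ∈ range k, min (Z i a) M = ∑ i ∈ range k, Z i a := by
      apply sum_congr rfl
      intro i hi
      exact eq_of_not M I A hA k Z a ha.1 h i (mem_range.1 hi)
    rw [h3]
    exact ha.2

/-- the hypothesis -/
def Hyp (ε M e : ℝ) (I A : Finset ℕ) (k : ℕ) (Z : ℕ → ℕ → ℝ) : Prop :=
  (∀ (q : Fin 3) (u j : ℕ), u ≤ j → j < k →
    |∑ a ∈ I, wt A (phi (ε / 20) q) (fun i a => min (Z i a) M) u j a * (min (Z j a) M - 1)| ≤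
      (ε / 40) * ∑ a ∈ I, wt A (phi (ε / 20) q) (fun i a => min (Z i a) M) u j a + e) ∧
  ∀ i < k, ∀ E : Finset ℕ, E ⊆ I → (∀ a ∈ E, M < Z i a) → (E.card : ℝ) ≤ e

/-- short tuples -/
lemma RR_short (ε e : ℝ) (hε : 0 < ε) (hε1 : ε ≤ 1 / 4) (he : 0 ≤ e) (I A : Finset ℕ)
    (hA : A ⊆ I) (k : ℕ) (Z : ℕ → ℕ → ℝ) (hZ : ∀ i a, 0 ≤ Z i a) (h : Hyp ε (4 + ε) e I A k Z) :
    ((RR ε A k Z).card : ℝ) ≤ 2 * Real.exp (-(ε ^ 2 * k / 100)) * A.card +
      (2 * Real.exp (ε / 4 * k) * (k * e) + k * e) := by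
  classical
  have h1 := block I A hA (fun i a => min (Z i a) (4 + ε)) (4 + ε) ε e (by linarith) hε hε1
    (fun i a => le_min (hZ i a) (by linarith)) (fun i a => min_le_right _ _) he 0 k (Nat.zero_le _)
    (fun q j hj hjk => h.1 q 0 j hj hjk)
  rw [Nat.sub_zero, Nat.Ico_zero_eq_range] at h1
  have h2 := XX_card (4 + ε) I k Z e h.2
  have h3 : ((RR ε A k Z).card : ℝ) ≤
      ((A.filter (fun a => ε / 2 * k < |∑ i ∈ range k, min (Z i a) (4 + ε) - k|)).card : ℝ) +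
      (XX (4 + ε) I k Z).card := by
    exact_mod_cast (card_le_card (RR_sub ε (4 + ε) I A hA k Z)).trans (card_union_le _ _)
  linarith

/-- long tuples -/
lemma RR_long (ε e : ℝ) (hε : 0 < ε) (hε1 : ε ≤ 1 / 4) (he : 0 ≤ e) (I A : Finset ℕ)
    (hA : A ⊆ I) (k k0 : ℕ) (hk0 : 1 ≤ k0) (hk : k0 ≤ k) (Z : ℕ → ℕ → ℝ) (hZ : ∀ i a, 0 ≤ Z i a)
    (h : Hyp ε (4 + ε) e I A k Z) :
    ((RR ε A k Z).card : ℝ) ≤ ((k : ℝ) + 1) ^ 2 * (2 * Real.exp (-(ε ^ 2 * k0 / 100)) * A.card +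
      2 * Real.exp (ε / 2 * k0) * (2 * k0 * e)) + k * e := by
  classical
  obtain ⟨G, hG⟩ : ∃ G : ℕ → ℕ → Finset ℕ, G = fun u v => if u ≤ v ∧ v ≤ k ∧ k0 ≤ v - u ∧ v - u ≤ 2 * k0 then
      A.filter (fun a => (ε / 2) * (v - u : ℕ) < |∑ i ∈ Ico u v, min (Z i a) (4 + ε) - (v - u : ℕ)|)
      else ∅ := ⟨_, rfl⟩
  have hGc : ∀ u v, ((G u v).card : ℝ) ≤ 2 * Real.exp (-(ε ^ 2 * k0 / 100)) * A.card +
      2 * Real.exp (ε / 2 * k0) * (2 * k0 * e) := by
    intro u v
    rw [hG]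
    simp only
    split_ifs with h0
    · obtain ⟨h1, h2, h3, h4⟩ := h0
      have h5 := block I A hA (fun i a => min (Z i a) (4 + ε)) (4 + ε) ε e (by linarith) hε hε1
        (fun i a => le_min (hZ i a) (by linarith)) (fun i a => min_le_right _ _) he u v h1
        (fun q j hj hjk => h.1 q u j hj (by omega))
      refine h5.trans ?_
      have h3r : (k0 : ℝ) ≤ ((v - u : ℕ) : ℝ) := by exact_mod_cast h3
      have h4r : ((v - u : ℕ) : ℝ) ≤ 2 * k0 := by exact_mod_cast h4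
      have hε2 : 0 < ε ^ 2 := by positivity
      apply add_le_add
      · apply mul_le_mul_of_nonneg_right _ (Nat.cast_nonneg _)
        apply mul_le_mul_of_nonneg_left _ (by norm_num)
        apply Real.exp_le_exp.2
        have := mul_le_mul_of_nonneg_left h3r hε2.le
        linarith
      · apply mul_le_mul
        · apply mul_le_mul_of_nonneg_left _ (by norm_num)
          apply Real.exp_le_exp.2
          have := mul_le_mul_of_nonneg_left h4r hε.le
          linarith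
        · exact mul_le_mul_of_nonneg_right h4r he
        · positivity
        · positivity
    · rw [card_empty, Nat.cast_zero]
      positivity
  obtain ⟨F, hF⟩ : ∃ F : Finset ℕ, F = (range (k + 1)).biUnion fun u => (range (k + 1)).biUnion fun v => G u v :=
    ⟨_, rfl⟩
  have hFc : (F.card : ℝ) ≤ ((k : ℝ) + 1) ^ 2 * (2 * Real.exp (-(ε ^ 2 * k0 / 100)) * A.card +
      2 * Real.exp (ε / 2 * k0) * (2 * k0 * e)) := by
    have h1 : F.card ≤ ∑ u ∈ range (k + 1), ∑ v ∈ range (k + 1), (G u v).card := by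
      rw [hF]
      exact card_biUnion_le.trans (sum_le_sum fun u _ => card_biUnion_le)
    have h2 : (F.card : ℝ) ≤ ∑ u ∈ range (k + 1), ∑ v ∈ range (k + 1), ((G u v).card : ℝ) := by exact_mod_cast h1
    refine h2.trans ((sum_le_sum fun u _ => sum_le_sum fun v _ => hGc u v).trans (le_of_eq ?_))
    simp only [sum_const, card_range, nsmul_eq_mul]
    push_cast
    ring
  have hsub : RR ε A k Z ⊆ F ∪ XX (4 + ε) I k Z := by
    intro a ha
    have h1 := RR_sub ε (4 + ε) I A hA k Z ha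
    rw [mem_union] at h1 ⊢
    rcases h1 with h1 | h1
    · left
      rw [mem_filter] at h1
      by_contra hcon
      have h2 := long_sum (fun v => ∑ i ∈ range v, min (Z i a) (4 + ε)) k0 k (1 - ε / 2) (1 + ε / 2) hk0 (by
        intro u v huv hvk h3 h4
        have h5 : a ∉ G u v := by
          intro h6
          apply hcon
          rw [hF, mem_biUnion]
          refine ⟨u, mem_range.2 (by omega), ?_⟩
          rw [mem_biUnion]
          exact ⟨v, mem_range.2 (by omega), h6⟩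
        rw [hG] at h5
        simp only at h5
        rw [if_pos ⟨huv, hvk, h3, h4⟩, mem_filter, not_and, not_lt] at h5
        have h6 := abs_le.1 (h5 h1.1)
        have h7 : ∑ i ∈ range v, min (Z i a) (4 + ε) - ∑ i ∈ range u, min (Z i a) (4 + ε) =
            ∑ i ∈ Ico u v, min (Z i a) (4 + ε) := by
          rw [sum_Ico_eq_sub _ huv]
        rw [h7]
        constructor <;> linarith [h6.1, h6.2]) k le_rfl hk
      simp only [range_zero, sum_empty, sub_zero] at h2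
      have h3 : |∑ i ∈ range k, min (Z i a) (4 + ε) - k| ≤ ε / 2 * k := by
        rw [abs_le]
        constructor <;> linarith [h2.1, h2.2]
      linarith [h1.2]
    · exact Or.inr h1
  have h2 := XX_card (4 + ε) I k Z e h.2
  have h3 : ((RR ε A k Z).card : ℝ) ≤ (F.card : ℝ) + (XX (4 + ε) I k Z).card := by
    exact_mod_cast (card_le_card hsub).trans (card_union_le _ _)
  linarith

open Classical in
/-- zeros -/
lemma no_primes (ε e : ℝ) (hε : 0 < ε) (hε1 : ε ≤ 1 / 4) (he : 0 ≤ e) (I A : Finset ℕ)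
    (hA : A ⊆ I) (k : ℕ) (Z : ℕ → ℕ → ℝ) (hZ : ∀ i a, 0 ≤ Z i a) (h : Hyp ε (4 + ε) e I A k Z) :
    ((A.filter fun a => ∀ i < k, Z i a = 0).card : ℝ) ≤ (3 / 4 + ε) ^ k * A.card + k * e := by
  have h1 := zeros I A hA (fun i a => min (Z i a) (4 + ε)) (4 + ε) ε e (ε / 20) le_rfl (by linarith) hε hε1
    (fun i a => le_min (hZ i a) (by linarith)) (fun i a => min_le_right _ _) he k
    (fun j hjk => h.1 2 0 j (Nat.zero_le _) hjk)
  refine le_trans ?_ h1
  apply Nat.cast_le.2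
  apply card_le_card
  intro a ha
  rw [mem_filter] at ha ⊢
  refine ⟨ha.1, fun i hi => ?_⟩
  rw [ha.2 i hi]
  exact min_eq_left (by linarith)

/-- the exponents -/
theorem absT (C : ℕ) (ε : ℝ) (hε : 0 < ε) (hε1 : ε ≤ 1 / 4) : ∃ D κ : ℕ, ∃ L0 : ℝ, ∀ N L : ℝ, 0 < N → L0 ≤ L →
    ∀ I A : Finset ℕ, A ⊆ I → (I.card : ℝ) ≤ N * L ^ C → ∀ k : ℕ, (k : ℝ) ≤ L ^ C → ∀ Z : ℕ → ℕ → ℝ,
    (∀ i a, 0 ≤ Z i a) → Hyp ε (4 + ε) (N / L ^ D) I A k Z →
    (((RR ε A k Z).card : ℝ) ≤ 2 * Real.exp (-(ε ^ 2 * k / 100)) * A.card + N / L ^ (C + 1)) ∧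
    (κ * Real.log L ≤ k → ((RR ε A k Z).card : ℝ) ≤ N / L ^ (C + 3)) ∧
    ∀ A' : Finset ℕ, A' ⊆ A → (∀ a ∈ A', ∀ i < k, Z i a = 0) → (A'.card : ℝ) ≤ (3 / 4 + ε) ^ k * A.card + N / L ^ C := by
  classical
  obtain ⟨κ, hκ⟩ : ∃ κ : ℕ, 100 * (4 * C + 6) / ε ^ 2 ≤ κ := exists_nat_ge _
  have hε2 : 0 < ε ^ 2 := by positivity
  rw [div_le_iff₀ hε2] at hκ
  obtain ⟨D, hD⟩ : ∃ D, D = κ + 3 * C + 12 := ⟨_, rfl⟩
  have hκ0 : (0 : ℝ) ≤ κ := Nat.cast_nonneg κ
  obtain ⟨L1, hL1e⟩ : ∃ L1 : ℝ, ∀ L : ℝ, L1 ≤ L → Real.log L ≤ 1 / (4 * (κ + 1)) * L := by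
    have h1 : ∀ᶠ x : ℝ in atTop, ‖Real.log x‖ ≤ 1 / (4 * (κ + 1)) * ‖x‖ :=
      Real.isLittleO_log_id_atTop.def (by positivity)
    obtain ⟨L1, h2⟩ := (h1.and (eventually_ge_atTop 0)).exists_forall_of_atTop
    refine ⟨L1, fun L hL => ?_⟩
    obtain ⟨h3, h4⟩ := h2 L hL
    rw [Real.norm_eq_abs, Real.norm_eq_abs, abs_of_nonneg h4] at h3
    exact (le_abs_self _).trans h3
  refine ⟨D, κ + 1, max L1 64, fun N L hN0 hL I A hA hI k hk Z hZ hhyp => ?_⟩
  have hLL := hL1e L ((le_max_left _ _).trans hL)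
  have hL64 : 64 ≤ L := (le_max_right _ _).trans hL
  obtain ⟨l2, hl2⟩ : ∃ l2, l2 = Real.log L := ⟨_, rfl⟩
  rw [← hl2] at hLL ⊢
  have hAc : (A.card : ℝ) ≤ N * L ^ C := by
    refine le_trans ?_ hI
    exact_mod_cast card_le_card hA
  have hL0 : 0 < L := by linarith
  have hL1 : 1 ≤ L := by linarith
  have hl21 : 1 ≤ l2 := by
    rw [hl2, Real.le_log_iff_exp_le hL0]
    have := Real.exp_one_lt_d9
    linarith
  have hLpow : ∀ n : ℕ, Real.exp (n * l2) = L ^ n := by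
    intro n
    rw [Real.exp_nat_mul, hl2, Real.exp_log hL0]
  obtain ⟨e, he⟩ : ∃ e : ℝ, e = N / L ^ D := ⟨_, rfl⟩
  rw [← he] at hhyp
  have he0 : 0 ≤ e := by rw [he]; positivity
  -- the length of the blocks
  obtain ⟨k0, hk0⟩ : ∃ k0 : ℕ, k0 = ⌈(κ : ℝ) * l2⌉₊ + 1 := ⟨_, rfl⟩
  have hk01 : 1 ≤ k0 := by omega
  have hk0l : (κ : ℝ) * l2 ≤ k0 := by
    rw [hk0]
    push_cast
    have := Nat.le_ceil ((κ : ℝ) * l2)
    linarith
  have hk0u : (k0 : ℝ) ≤ κ * l2 + 2 := by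
    rw [hk0]
    push_cast
    have := Nat.ceil_lt_add_one (show 0 ≤ (κ : ℝ) * l2 by positivity)
    linarith
  have hk0L : 2 * (k0 : ℝ) ≤ L := by
    have h1 : ((κ : ℝ) + 1) * l2 ≤ L / 4 := by
      have h2 : ((κ : ℝ) + 1) * l2 ≤ ((κ : ℝ) + 1) * (1 / (4 * (κ + 1)) * L) :=
        mul_le_mul_of_nonneg_left hLL (by positivity)
      have h3 : ((κ : ℝ) + 1) * (1 / (4 * (κ + 1)) * L) = L / 4 := by
        field_simp
      linarith
    nlinarith
  have hexp8 : Real.exp ((k0 : ℝ) / 8) ≤ 2 * L ^ κ := by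
    have h1 : (k0 : ℝ) / 8 ≤ κ * l2 + 1 / 4 := by
      have : 0 ≤ (κ : ℝ) * l2 := by positivity
      linarith
    calc Real.exp ((k0 : ℝ) / 8) ≤ Real.exp (κ * l2 + 1 / 4) := Real.exp_le_exp.2 h1
      _ = L ^ κ * Real.exp (1 / 4) := by rw [Real.exp_add, hLpow]
      _ ≤ L ^ κ * 2 := by
          apply mul_le_mul_of_nonneg_left _ (by positivity)
          have h2 : Real.exp (1 / 4) ≤ Real.exp (Real.log 2) := by
            apply Real.exp_le_exp.2
            have := Real.log_two_gt_d9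
            linarith
          rwa [Real.exp_log (by norm_num)] at h2
      _ = _ := mul_comm _ _
  have hexpA : Real.exp (-(ε ^ 2 * k0 / 100)) ≤ 1 / L ^ (4 * C + 6) := by
    rw [← hLpow, one_div, ← Real.exp_neg]
    apply Real.exp_le_exp.2
    apply neg_le_neg
    push_cast
    have h1 : ε ^ 2 * (κ * l2) ≤ ε ^ 2 * k0 := mul_le_mul_of_nonneg_left hk0l hε2.le
    have h2 : 100 * (4 * (C : ℝ) + 6) * l2 ≤ κ * ε ^ 2 * l2 := mul_le_mul_of_nonneg_right hκ (by linarith)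
    nlinarith
  have hLC : 1 ≤ L ^ C := one_le_pow₀ hL1
  -- powers
  have hpw : ∀ r t : ℕ, r + t ≤ D → L ^ r * e ≤ N / L ^ t := by
    intro r t hrt
    rw [he, ← mul_div_assoc, div_le_div_iff₀ (by positivity) (by positivity)]
    calc L ^ r * N * L ^ t = N * L ^ (r + t) := by rw [pow_add]; ring
      _ ≤ N * L ^ D := mul_le_mul_of_nonneg_left (pow_le_pow_right₀ hL1 hrt) hN0.le
  have hke : (k : ℝ) * e ≤ L ^ C * e := mul_le_mul_of_nonneg_right hk he0
  -- short tuples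
  have hshort : k ≤ 2 * k0 → 2 * Real.exp (ε / 4 * k) * (k * e) + k * e ≤ N / L ^ (C + 1) := by
    intro h
    have hr : (k : ℝ) ≤ 2 * k0 := by exact_mod_cast h
    have h1 : Real.exp (ε / 4 * k) ≤ 2 * L ^ κ := by
      refine le_trans (Real.exp_le_exp.2 ?_) hexp8
      have : ε / 4 * k ≤ 1 / 16 * (2 * k0) := by
        apply mul_le_mul (by linarith) hr (Nat.cast_nonneg _) (by norm_num)
      linarith
    have hLκ : 1 ≤ L ^ κ := one_le_pow₀ hL1
    calc 2 * Real.exp (ε / 4 * k) * (k * e) + k * e ≤ 2 * (2 * L ^ κ) * (L ^ C * e) + 1 * (L ^ C * e) := by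
          rw [one_mul]
          apply add_le_add _ hke
          apply mul_le_mul _ hke (by positivity) (by positivity)
          linarith
      _ = (4 * L ^ κ + 1) * (L ^ C * e) := by ring
      _ ≤ (L ^ κ * L) * (L ^ C * e) := by
          apply mul_le_mul_of_nonneg_right _ (by positivity)
          nlinarith
      _ = L ^ (κ + C + 1) * e := by ring
      _ ≤ _ := hpw _ _ (by omega)
  -- long tuples
  have hlong : ((k : ℝ) + 1) ^ 2 * (2 * Real.exp (-(ε ^ 2 * k0 / 100)) * A.card +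
      2 * Real.exp (ε / 2 * k0) * (2 * k0 * e)) + k * e ≤ N / L ^ (C + 3) := by
    have h1 : ((k : ℝ) + 1) ^ 2 ≤ 4 * L ^ (2 * C) := by
      have : (k : ℝ) + 1 ≤ 2 * L ^ C := by linarith
      calc ((k : ℝ) + 1) ^ 2 ≤ (2 * L ^ C) ^ 2 := pow_le_pow_left₀ (by positivity) this 2
        _ = 4 * L ^ (2 * C) := by rw [mul_comm 2 C, pow_mul]; ring
    have h2 : 2 * Real.exp (-(ε ^ 2 * k0 / 100)) * A.card ≤ 2 * (1 / L ^ (4 * C + 6)) * (N * L ^ C) := by
      apply mul_le_mul _ hAc (Nat.cast_nonneg _) (by positivity)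
      linarith
    have h3 : 2 * Real.exp (ε / 2 * k0) * (2 * k0 * e) ≤ 2 * (2 * L ^ κ) * (L * e) := by
      apply mul_le_mul _ (mul_le_mul_of_nonneg_right hk0L he0) (by positivity) (by positivity)
      apply mul_le_mul_of_nonneg_left _ (by norm_num)
      refine le_trans (Real.exp_le_exp.2 ?_) hexp8
      have : (0 : ℝ) ≤ k0 := Nat.cast_nonneg _
      nlinarith
    have p1 : 4 * L ^ (2 * C) * (2 * (1 / L ^ (4 * C + 6)) * (N * L ^ C)) ≤ N / L ^ (C + 4) := by
      have e1 : 4 * L ^ (2 * C) * (2 * (1 / L ^ (4 * C + 6)) * (N * L ^ C)) = (8 / L ^ 2) * (N / L ^ (C + 4)) := by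
        rw [show 4 * C + 6 = 2 * C + C + 2 + (C + 4) by ring, pow_add L (2 * C + C + 2), pow_add L (2 * C + C),
          pow_add L (2 * C)]
        field_simp
        norm_num
      rw [e1]
      have e2 : 8 / L ^ 2 ≤ 1 := by
        rw [div_le_one (by positivity)]
        nlinarith
      calc 8 / L ^ 2 * (N / L ^ (C + 4)) ≤ 1 * (N / L ^ (C + 4)) :=
            mul_le_mul_of_nonneg_right e2 (by positivity)
        _ = _ := one_mul _
    have p2 : 4 * L ^ (2 * C) * (2 * (2 * L ^ κ) * (L * e)) ≤ N / L ^ (C + 4) := by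
      calc 4 * L ^ (2 * C) * (2 * (2 * L ^ κ) * (L * e)) = 16 * L ^ (2 * C + κ + 1) * e := by ring
        _ ≤ L * L ^ (2 * C + κ + 1) * e := by
            apply mul_le_mul_of_nonneg_right _ he0
            exact mul_le_mul_of_nonneg_right (by linarith) (by positivity)
        _ = L ^ (2 * C + κ + 2) * e := by ring
        _ ≤ _ := hpw _ _ (by omega)
    have p3 : (k : ℝ) * e ≤ N / L ^ (C + 4) := hke.trans (hpw _ _ (by omega))
    have p4 : 3 * (N / L ^ (C + 4)) ≤ N / L ^ (C + 3) := by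
      have e1 : N / L ^ (C + 3) = L * (N / L ^ (C + 4)) := by
        rw [show C + 4 = C + 3 + 1 by ring, pow_succ L (C + 3)]
        field_simp
      rw [e1]
      exact mul_le_mul_of_nonneg_right (by linarith) (by positivity)
    have h4 : ((k : ℝ) + 1) ^ 2 * (2 * Real.exp (-(ε ^ 2 * k0 / 100)) * A.card +
        2 * Real.exp (ε / 2 * k0) * (2 * k0 * e)) ≤
        4 * L ^ (2 * C) * (2 * (1 / L ^ (4 * C + 6)) * (N * L ^ C) + 2 * (2 * L ^ κ) * (L * e)) := by
      apply mul_le_mul h1 (add_le_add h2 h3) (by positivity) (by positivity)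
    rw [mul_add] at h4
    linarith
  have h4 : k0 ≤ k → ((RR ε A k Z).card : ℝ) ≤ N / L ^ (C + 3) := fun h =>
    (RR_long ε e hε hε1 he0 I A hA k k0 hk01 h Z hZ hhyp).trans hlong
  refine ⟨?_, ?_, ?_⟩
  · by_cases h : k ≤ 2 * k0
    · have h5 := RR_short ε e hε hε1 he0 I A hA k Z hZ hhyp
      have := hshort h
      linarith
    · have h5 := h4 (by omega)
      have h6 : N / L ^ (C + 3) ≤ N / L ^ (C + 1) := by
        apply div_le_div_of_nonneg_left hN0.le (by positivity)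
        exact pow_le_pow_right₀ hL1 (by omega)
      have h7 : 0 ≤ 2 * Real.exp (-(ε ^ 2 * k / 100)) * A.card := by positivity
      linarith
  · intro hk1
    apply h4
    have h1 : (k0 : ℝ) ≤ k + 1 := by
      push_cast at hk1
      nlinarith
    have h2 : k0 ≤ k + 1 := by exact_mod_cast h1
    rcases Nat.lt_or_ge k k0 with h3 | h3
    · exfalso
      have h4 : k0 = k + 1 := by omega
      have h5 : (⌈(κ : ℝ) * l2⌉₊ : ℝ) < κ * l2 + 1 := Nat.ceil_lt_add_one (by positivity)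
      have h6 : (k : ℝ) = ⌈(κ : ℝ) * l2⌉₊ := by
        have : k = ⌈(κ : ℝ) * l2⌉₊ := by omega
        exact_mod_cast this
      push_cast at hk1
      have h7 : (κ : ℝ) * l2 + l2 ≤ k := by linarith
      linarith
    · exact h3
  · intro A' hA' hA'0
    have h1 := no_primes ε e hε hε1 he0 I A hA k Z hZ hhyp
    have h2 : (A'.card : ℝ) ≤ ((A.filter fun a => ∀ i < k, Z i a = 0).card : ℝ) := by
      apply Nat.cast_le.2
      apply card_le_card
      intro a ha
      rw [mem_filter]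
      exact ⟨hA' ha, hA'0 a ha⟩
    refine (h2.trans h1).trans ?_
    have : (k : ℝ) * e ≤ N / L ^ C := hke.trans (hpw _ _ (by omega))
    linarith

end Pool.Agent.NH15.CT.V
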