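import Pool.Agent.TH646.TT.Par

set_option autoImplicit false

/-! The averages of `log p` over the intervals to the right of the points `a + b`, with arbitrary bounded
weights of the points `a`, for almost all the members `b` of a family of nearly minimal energy. -/

namespace Pool.Agent.NH15.CT

open Finset Filter
open Pool.Agent.H373R2.T7
open Pool.Agent.H807R2.Dav
open Pool.Agent.W301.SS
open Pool.Agent.TH646.TT
open Pool.Agent.TH646

set_option maxHeartbeats 4000000 in
theorem theta_w (p B C U : ℕ) : ∃ K0 N0 : ℕ, ∀ N : ℕ, N0 ≤ N → ∀ (x : ℕ) (s : ℕ → ℤ),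
    (∀ m ∈ Icc 1 x, |s m| ≤ B * N) →
    (energy p x s : ℝ) * N ≤ Real.log N ^ C * (x : ℝ) ^ (2 * p) →
    ∀ w : ℕ → ℝ, (∀ a, |w a| ≤ 1) → ∀ y : ℕ, Real.log N ^ K0 ≤ y → y ≤ 2 * N →
    ∀ S : Finset ℕ, S ⊆ Icc 1 x → (∀ m ∈ S, 0 < s m ∧ s m ≤ N ∧
      N / Real.log N ^ U < |∑ a ∈ Icc 1 N, w a * (av y (a + (s m).toNat) - 1)|) →
    (S.card : ℝ) ≤ x / Real.log N ^ U := by
  obtain ⟨U', n1, h1⟩ := LV.fam_sup p (B + 1) C 0 (U + 1)
  obtain ⟨W, K0, n2, h2⟩ := sup_par (B + 1) U'
  obtain ⟨n3, h3⟩ := eventually_atTop.1 (pnt_unif (W + (U + 2)))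
  obtain ⟨n4, h4⟩ := eventually_atTop.1 (ev_L (Real.log ((4 * (B + 2) : ℕ) : ℝ) + 4))
  obtain ⟨n5, h5⟩ := eventually_atTop.1 (ev_log W 2 1 one_pos)
  refine ⟨K0, n1 + n2 + n3 + n4 + n5 + 3, fun N hN x s hs hE w hw y hy1 hy2 S hSx hS => ?_⟩
  classical
  have b1 := h1 N (by omega) x s (fun m hm => (hs m hm).trans (by push_cast; nlinarith)) hE
  obtain ⟨hK1, b2⟩ := h2 N (by omega)
  have b3 := h3 N (by omega)
  have b4 := h4 N (by omega)
  have b5 := h5 N (by omega)
  have hN3 : 3 ≤ N := by omega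
  have hNr : (3 : ℝ) ≤ N := by exact_mod_cast hN3
  have hN0 : (0 : ℝ) < N := by linarith
  obtain ⟨L, hL⟩ : ∃ L, L = Real.log (N : ℝ) := ⟨_, rfl⟩
  rw [← hL] at b1 b2 b3 b4 b5 hK1 hy1 hS ⊢
  rw [Real.rpow_one] at b5
  have hlB : 0 ≤ Real.log ((4 * (B + 2) : ℕ) : ℝ) := Real.log_natCast_nonneg _
  have hL4 : 4 ≤ L := by linarith
  have hL1 : 1 ≤ L := by linarith
  have hL0 : 0 < L := by linarith
  have hLW : 0 < L ^ W := by positivity
  obtain ⟨K, hK⟩ : ∃ K, K = ⌊(N : ℝ) / L ^ W⌋₊ := ⟨_, rfl⟩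
  rw [← hK] at hK1 b2
  have hKle : (K : ℝ) ≤ N / L ^ W := by rw [hK]; exact Nat.floor_le (by positivity)
  have hK0 : (0 : ℝ) < K := by exact_mod_cast hK1
  have hKge : (N : ℝ) / (2 * L ^ W) ≤ K := by
    have e1 := Nat.lt_floor_add_one ((N : ℝ) / L ^ W)
    rw [← hK] at e1
    have e2 : (2 : ℝ) ≤ N / L ^ W := by
      rw [le_div_iff₀ hLW]
      exact b5
    have e3 : (N : ℝ) / (2 * L ^ W) = (N / L ^ W) / 2 := by field_simp
    rw [e3]
    linarith
  have hKN : (K : ℝ) ≤ N := hKle.trans (div_le_self hN0.le (one_le_pow₀ hL1))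
  have hKNn : K ≤ N := by exact_mod_cast hKN
  have hyr : (1 : ℝ) ≤ y := (one_le_pow₀ hL1).trans hy1
  have hy : 1 ≤ y := by exact_mod_cast hyr
  -- long intervals
  obtain ⟨E, hEd⟩ : ∃ E, E = (N : ℝ) / L ^ (W + (U + 2)) := ⟨_, rfl⟩
  rw [← hEd] at b3
  have hE0 : 0 ≤ E := by rw [hEd]; positivity
  have hEK : ∀ K' : ℕ, K ≤ K' → 2 * E / K' ≤ 1 / L ^ (U + 1) := by
    intro K' hK'
    have hK'0 : (0 : ℝ) < K' := by exact_mod_cast (by omega : 0 < K')
    rw [div_le_div_iff₀ hK'0 (by positivity)]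
    have e1 : (N : ℝ) / (2 * L ^ W) ≤ K' := hKge.trans (by exact_mod_cast hK')
    rw [div_le_iff₀ (by positivity)] at e1
    have e2 : 2 * E * L ^ (U + 1) = (2 * N) / (L ^ W * L) := by
      rw [hEd, show W + (U + 2) = W + 1 + (U + 1) by ring, pow_add L (W + 1), pow_succ L W]
      field_simp
    rw [e2, div_le_iff₀ (by positivity), one_mul]
    nlinarith [mul_pos hK'0 hLW]
  have hlong : ∀ K' : ℕ, K ≤ K' → K' ≤ 2 * N → ∀ m ∈ S,
      |∑ a ∈ Icc 1 N, w a * (av K' (a + (s m).toNat) - 1)| ≤ N / L ^ (U + 1) := by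
    intro K' hK' hK'2 m hm
    obtain ⟨g1, g2, _⟩ := hS m hm
    have g3 : (s m).toNat ≤ N := by omega
    refine (abs_sum_le_sum_abs _ _).trans ?_
    have e2 : ∀ a ∈ Icc 1 N, |w a * (av K' (a + (s m).toNat) - 1)| ≤ 1 / L ^ (U + 1) := by
      intro a ha
      have := (mem_Icc.1 ha).2
      rw [abs_mul]
      calc |w a| * |av K' (a + (s m).toNat) - 1| ≤ 1 * |av K' (a + (s m).toNat) - 1| :=
            mul_le_mul_of_nonneg_right (hw a) (abs_nonneg _)
        _ = |av K' (a + (s m).toNat) - 1| := one_mul _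
        _ ≤ _ := (av_pnt N K' _ (by omega) (by omega) E b3).trans (hEK K' hK')
    refine (sum_le_sum e2).trans ?_
    rw [sum_const, nsmul_eq_mul, mul_one_div, Nat.card_Icc, Nat.add_sub_cancel]
  have hhalf : 2 * (N / L ^ (U + 1)) ≤ N / L ^ U := by
    have e : N / L ^ U = L * (N / L ^ (U + 1)) := by
      rw [pow_succ]
      field_simp
    rw [e]
    apply mul_le_mul_of_nonneg_right _ (by positivity)
    linarith
  rcases le_or_gt y K with hyK | hyK
  · -- short intervals
    obtain ⟨H, hH⟩ : ∃ H, H = 2 * ((B + 1 + 1) * N) := ⟨_, rfl⟩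
    rw [← hH] at b1 b2
    have hNH : 2 * N ≤ H := by
      rw [hH]
      have : N ≤ (B + 1 + 1) * N := Nat.le_mul_of_pos_left _ (by omega)
      omega
    have hlogH : Real.log ((2 * H : ℕ) : ℝ) ≤ 2 * L := by
      have e : ((2 * H : ℕ) : ℝ) = ((4 * (B + 2) : ℕ) : ℝ) * N := by rw [hH]; push_cast; ring
      rw [e, Real.log_mul (by positivity) hN0.ne', ← hL]
      linarith
    have b6 := b1 (fun n => ((av y n - av K n : ℝ) : ℂ)) (fun α => by exact_mod_cast b2 y hy1 hyK α) (by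
      intro n hn
      rw [mem_Icc] at hn
      have e1 := av_le y n (2 * H) hy (by omega)
      have e2 := av_le K n (2 * H) hK1 (by omega)
      rw [abs_of_nonneg (av_nonneg _ _)] at e1 e2
      have e3 := av_nonneg y n
      have e4 := av_nonneg K n
      rw [Complex.norm_real, Real.norm_eq_abs, abs_le]
      constructor <;> linarith) (fun a => ((w a : ℝ) : ℂ)) (by
      intro a
      rw [pow_zero, Complex.norm_real, Real.norm_eq_abs]
      exact hw a) S hSx (by
      intro m hm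
      obtain ⟨g1, g2, g3⟩ := hS m hm
      refine ⟨N, ?_, ?_⟩
      · exact Nat.le_mul_of_pos_left _ (by omega)
      · have g4 := hlong K le_rfl (by omega) m hm
        have e1 : ∑ a ∈ Icc 1 N, ((w a : ℝ) : ℂ) *
            fz (fun n => ((av y n - av K n : ℝ) : ℂ)) H (a + s m) =
            ((∑ a ∈ Icc 1 N, w a * (av y (a + (s m).toNat) - av K (a + (s m).toNat)) : ℝ) : ℂ) := by
          push_cast
          apply sum_congr rfl
          intro a ha
          have e2 := mem_Icc.1 ha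
          have e3 : (a : ℤ) + s m = ((a + (s m).toNat : ℕ) : ℤ) := by
            push_cast
            rw [Int.toNat_of_nonneg g1.le]
          unfold fz
          rw [e3, Int.toNat_natCast, if_pos ⟨by exact_mod_cast (by omega : 1 ≤ a + (s m).toNat),
            by exact_mod_cast (by omega : a + (s m).toNat ≤ H)⟩]
        rw [e1, Complex.norm_real, Real.norm_eq_abs]
        have e2 : ∑ a ∈ Icc 1 N, w a * (av y (a + (s m).toNat) - 1) =
            ∑ a ∈ Icc 1 N, w a * (av y (a + (s m).toNat) - av K (a + (s m).toNat)) +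
            ∑ a ∈ Icc 1 N, w a * (av K (a + (s m).toNat) - 1) := by
          rw [← sum_add_distrib]
          apply sum_congr rfl
          intro a _
          ring
        rw [e2] at g3
        have e3 := abs_add_le (∑ a ∈ Icc 1 N, w a * (av y (a + (s m).toNat) - av K (a + (s m).toNat)))
          (∑ a ∈ Icc 1 N, w a * (av K (a + (s m).toNat) - 1))
        linarith)
    refine b6.trans ?_
    apply div_le_div_of_nonneg_left (Nat.cast_nonneg _) (by positivity)
    exact pow_le_pow_right₀ hL1 (by omega)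
  · have hSe : S = ∅ := by
      rw [eq_empty_iff_forall_notMem]
      intro m hm
      have g4 := hlong y hyK.le hy2 m hm
      have g5 := (hS m hm).2.2
      have : (0 : ℝ) < N / L ^ (U + 1) := by positivity
      linarith
    rw [hSe, card_empty, Nat.cast_zero]
    positivity

end Pool.Agent.NH15.CT
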