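import Pool.Agent.NH15.CT.W1
import Pool.Agent.W301.SS.Full

set_option autoImplicit false

/-! From the averages of `log p` to truncated numbers of primes, with bounded weights. -/

namespace Pool.Agent.NH15.CT

open Finset Filter
open Pool.Agent.H373R2.T7
open Pool.Agent.W301.SS
open Pool.Agent.TH646.TT

/-- the normalised number of the primes in `(a + b, a + b + y]` -/
noncomputable def Z (N b y a : ℕ) : ℝ := (pn (a + b) y : ℝ) * Real.log N / y

/-- the same, truncated at `M` -/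
noncomputable def Y (M : ℝ) (N b y a : ℕ) : ℝ := min (Z N b y a) M

lemma Z_nonneg (N b y a : ℕ) : 0 ≤ Z N b y a :=
  div_nonneg (mul_nonneg (Nat.cast_nonneg _) (Real.log_natCast_nonneg _)) (Nat.cast_nonneg _)

lemma Z_le (N b y a : ℕ) (hy : 1 ≤ y) : Z N b y a ≤ Real.log N := by
  have hy0 : (0 : ℝ) < y := by exact_mod_cast hy
  unfold Z
  rw [div_le_iff₀ hy0, mul_comm]
  apply mul_le_mul_of_nonneg_left _ (Real.log_natCast_nonneg _)
  exact_mod_cast pn_le _ _

lemma Y_nonneg {M : ℝ} (hM : 0 ≤ M) (N b y a : ℕ) : 0 ≤ Y M N b y a := le_min (Z_nonneg _ _ _ _) hM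

lemma Y_le {M : ℝ} (N b y a : ℕ) : Y M N b y a ≤ M := min_le_right _ _

lemma Y_le_Z {M : ℝ} (N b y a : ℕ) : Y M N b y a ≤ Z N b y a := min_le_left _ _

lemma av_low (N n y : ℕ) (h : n + y ≤ 4 * N) (L : ℝ) (hL : Real.log ((4 * N : ℕ) : ℝ) ≤ L) :
    av y n ≤ L * pn n y / y := by
  unfold av
  apply div_le_div_of_nonneg_right _ (Nat.cast_nonneg _)
  rw [pn_eq, mul_sum]
  apply sum_le_sum
  intro i hi
  rw [mem_Ioc] at hi
  unfold om
  split_ifs with hp
  · rw [mul_one]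
    refine le_trans (Real.log_le_log ?_ ?_) hL
    · exact_mod_cast hp.pos
    · exact_mod_cast (by omega : n + i ≤ 4 * N)
  · rw [mul_zero]

lemma av_up (n y X : ℕ) (hX : 1 ≤ X) (hn : X ≤ n) (L : ℝ) (hL : L ≤ Real.log (X : ℝ)) :
    L * pn n y / y ≤ av y n := by
  unfold av
  apply div_le_div_of_nonneg_right _ (Nat.cast_nonneg _)
  rw [pn_eq, mul_sum]
  apply sum_le_sum
  intro i hi
  rw [mem_Ioc] at hi
  unfold om
  split_ifs with hp
  · rw [mul_one]
    refine hL.trans (Real.log_le_log ?_ ?_)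
    · exact_mod_cast (by omega : 0 < X)
    · exact_mod_cast (by omega : X ≤ n + i)
  · rw [mul_zero]

/-- few points with many primes to their right -/
lemma exc (U : ℕ) (M : ℝ) (hM : 4 < M) : ∀ᶠ N : ℕ in atTop, ∀ b ∈ Icc 1 N, ∀ y : ℕ,
    Real.log N ^ (U + 20) ≤ y →
    ∀ E : Finset ℕ, E ⊆ Icc 1 N → (∀ a ∈ E, M < Z N b y a) → (E.card : ℝ) ≤ N / Real.log N ^ U := by
  obtain ⟨δ, hδ⟩ : ∃ δ, δ = min (1 / 16) ((M - 4) / 16) := ⟨_, rfl⟩
  have hδ0 : 0 < δ := by rw [hδ]; exact lt_min (by norm_num) (by linarith)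
  have hδ1 : δ ≤ 1 / 16 := by rw [hδ]; exact min_le_left _ _
  have hδ2 : δ ≤ (M - 4) / 16 := by rw [hδ]; exact min_le_right _ _
  have hMδ : 4 / (1 - 2 * δ) + δ ≤ M := by
    have h1 : 4 / (1 - 2 * δ) ≤ 4 * (1 + 3 * δ) := by
      rw [div_le_iff₀ (by linarith)]
      nlinarith
    linarith
  filter_upwards [subsets δ hδ0 (by linarith), ev_L (1024 / δ + 4), ev_log (U + 2) (24 / δ ^ 2) δ hδ0,
    ev_log (U + 1) (2 / δ) (3 / 4) (by norm_num), eventually_ge_atTop 16] with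
    N h2 h3 h4 h5 hN16 b hb y hyC E hE hEZ
  have hNr : (16 : ℝ) ≤ N := by exact_mod_cast hN16
  have hN0 : (0 : ℝ) < N := by linarith
  set ℓ := Real.log N with hℓ
  have hd1 : 0 < 1024 / δ := by positivity
  have hℓ4 : 4 ≤ ℓ := by linarith
  have hℓ0 : 0 < ℓ := by linarith
  have hyr : (1 : ℝ) ≤ y := (one_le_pow₀ (by linarith)).trans hyC
  have hyn : 1 ≤ y := by exact_mod_cast hyr
  have hy0 : (0 : ℝ) < y := by linarith
  by_contra hcon
  rw [not_le] at hcon
  have hAc : (N : ℝ) / ℓ ^ U ≤ E.card := hcon.le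
  have c1 : (3 * (N : ℝ) ^ (1 - δ) + (2 * N / y) * (2 * ℓ) ^ 16) * (4 * ℓ ^ 2 / δ ^ 2) ≤ E.card := by
    refine le_trans ?_ hAc
    have a1 : 3 * (N : ℝ) ^ (1 - δ) * (4 * ℓ ^ 2 / δ ^ 2) ≤ (1 / 2) * (N / ℓ ^ U) := by
      have e1 : 3 * (N : ℝ) ^ (1 - δ) * (4 * ℓ ^ 2 / δ ^ 2) =
          (1 / 2) * ((24 / δ ^ 2 * ℓ ^ (U + 2)) * (N : ℝ) ^ (1 - δ) / ℓ ^ U) := by
        rw [pow_add]; field_simp; ring
      rw [e1]
      apply mul_le_mul_of_nonneg_left _ (by norm_num)
      apply div_le_div_of_nonneg_right _ (by positivity)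
      calc (24 / δ ^ 2 * ℓ ^ (U + 2)) * (N : ℝ) ^ (1 - δ) ≤ (N : ℝ) ^ δ * (N : ℝ) ^ (1 - δ) := by gcongr
        _ = N := by rw [← Real.rpow_add hN0]; norm_num
    have a2 : (2 * N / y) * (2 * ℓ) ^ 16 * (4 * ℓ ^ 2 / δ ^ 2) ≤ (1 / 2) * (N / ℓ ^ U) := by
      have e1 : (2 * N / y) * (2 * ℓ) ^ 16 * (4 * ℓ ^ 2 / δ ^ 2) =
          (1 / 2) * (N / ℓ ^ U) * ((1048576 / δ ^ 2) * ℓ ^ (U + 18) / y) := by
        rw [pow_add]; field_simp; ring
      rw [e1]
      have e2 : (1048576 / δ ^ 2) * ℓ ^ (U + 18) / y ≤ 1 := by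
        rw [div_le_one hy0]
        refine le_trans ?_ hyC
        have e3 : ℓ ^ (U + 20) = ℓ ^ 2 * ℓ ^ (U + 18) := by rw [← pow_add]; congr 1; omega
        rw [e3]
        apply mul_le_mul_of_nonneg_right _ (by positivity)
        have e4 : 1024 / δ ≤ ℓ := by linarith
        calc 1048576 / δ ^ 2 = (1024 / δ) ^ 2 := by field_simp; norm_num
          _ ≤ ℓ ^ 2 := pow_le_pow_left₀ hd1.le e4 2
      calc _ ≤ (1 / 2) * (N / ℓ ^ U) * 1 := mul_le_mul_of_nonneg_left e2 (by positivity)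
        _ = _ := by ring
    calc _ = 3 * (N : ℝ) ^ (1 - δ) * (4 * ℓ ^ 2 / δ ^ 2) +
          (2 * N / y) * (2 * ℓ) ^ 16 * (4 * ℓ ^ 2 / δ ^ 2) := by ring
      _ ≤ _ := by linarith
  have c2 : (N : ℝ) ^ (1 / 4 : ℝ) * (2 * ℓ / δ) ≤ E.card := by
    refine le_trans ?_ hAc
    rw [le_div_iff₀ (by positivity)]
    calc (N : ℝ) ^ (1 / 4 : ℝ) * (2 * ℓ / δ) * ℓ ^ U =
          (N : ℝ) ^ (1 / 4 : ℝ) * (2 / δ * ℓ ^ (U + 1)) := by
            have e1 : ℓ ^ (U + 1) = ℓ ^ U * ℓ := pow_succ ℓ U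
            rw [e1]; ring
      _ ≤ (N : ℝ) ^ (1 / 4 : ℝ) * (N : ℝ) ^ (3 / 4 : ℝ) := by gcongr
      _ = N := by rw [← Real.rpow_add hN0]; norm_num
  have g2 := h2 E (fun a ha => (mem_Icc.1 (hE ha)).2) b hb y hyn c1 c2 E (Subset.refl _)
  have hE0 : (0 : ℝ) < E.card := lt_of_le_of_lt (by positivity) hcon
  have hEne : E.Nonempty := by
    rw [← card_pos]
    exact_mod_cast hE0
  have g3 : (M * E.card) * y < (∑ a ∈ E, (pn (a + b) y : ℝ)) * ℓ := by
    have e1 : ∑ _a ∈ E, M < ∑ a ∈ E, Z N b y a := sum_lt_sum_of_nonempty hEne hEZ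
    rw [sum_const, nsmul_eq_mul] at e1
    have e2 : ∑ a ∈ E, Z N b y a = (∑ a ∈ E, (pn (a + b) y : ℝ)) * ℓ / y := by
      unfold Z
      rw [← sum_div, ← sum_mul]
    rw [e2, lt_div_iff₀ hy0] at e1
    linarith
  have g4 : (4 / (1 - 2 * δ) * E.card + δ * E.card) * y ≤ (M * E.card) * y := by
    apply mul_le_mul_of_nonneg_right _ hy0.le
    rw [← add_mul]
    exact mul_le_mul_of_nonneg_right hMδ hE0.le
  linarith

/-- one length -/
theorem one (p B C U : ℕ) (M δ : ℝ) (hM : 4 < M) (hδ : 0 < δ) (hδ1 : δ ≤ 1) : ∃ K0 : ℕ, ∀ᶠ N : ℕ in atTop,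
    ∀ (x : ℕ) (s : ℕ → ℤ), (∀ m ∈ Icc 1 x, |s m| ≤ B * N) →
    (energy p x s : ℝ) * N ≤ Real.log N ^ C * (x : ℝ) ^ (2 * p) →
    ∀ w : ℕ → ℝ, (∀ a, 0 ≤ w a) → (∀ a, w a ≤ 1) →
    ∀ y : ℕ, Real.log N ^ K0 ≤ y → y ≤ 2 * N →
    ∀ S : Finset ℕ, S ⊆ Icc 1 x → (∀ m ∈ S, 0 < s m ∧ s m ≤ N ∧
      δ * ∑ a ∈ Icc 1 N, w a + N / Real.log N ^ U <
        |∑ a ∈ Icc 1 N, w a * (Y M N (s m).toNat y a - 1)|) →
    (S.card : ℝ) ≤ x / Real.log N ^ U := by
  obtain ⟨η, hη⟩ : ∃ η, η = δ / 4 := ⟨_, rfl⟩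
  have hη0 : 0 < η := by rw [hη]; positivity
  have hη1 : η ≤ 1 / 4 := by rw [hη]; linarith
  obtain ⟨K1, n1, h1⟩ := theta_w p B C (U + 1)
  refine ⟨max K1 (U + 22), ?_⟩
  filter_upwards [ev_conv η hη0 hη1, exc (U + 2) M hM, ev_L 8, ev_log (U + 2) 2 η hη0,
    eventually_ge_atTop (n1 + 16)] with
    N h2 h3 h4 h5 hN16 x s hs hE w hw0 hw1 y hy1 hy2 S hSx hS
  have h6 := h1 N (by omega) x s hs hE w (fun a => by rw [abs_of_nonneg (hw0 a)]; exact hw1 a) y
  obtain ⟨h2, -⟩ := h2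
  have hNr : (16 : ℝ) ≤ N := by exact_mod_cast (by omega : 16 ≤ N)
  have hN0 : (0 : ℝ) < N := by linarith
  have hN1 : (1 : ℝ) ≤ N := by linarith
  obtain ⟨ℓ, hℓ⟩ : ∃ ℓ, ℓ = Real.log (N : ℝ) := ⟨_, rfl⟩
  rw [← hℓ] at h2 h3 h4 h5 h6 hy1 hS ⊢
  have hℓ1 : 1 ≤ ℓ := by linarith
  have hℓ0 : 0 < ℓ := by linarith
  have hyK : ℓ ^ K1 ≤ y := (pow_le_pow_right₀ hℓ1 (le_max_left _ _)).trans hy1
  have hyU : ℓ ^ (U + 2 + 20) ≤ y := (pow_le_pow_right₀ hℓ1 (le_max_right _ _)).trans hy1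
  have hyr : (1 : ℝ) ≤ y := (one_le_pow₀ hℓ1).trans hy1
  have hy : 1 ≤ y := by exact_mod_cast hyr
  have hy0 : (0 : ℝ) < y := by linarith
  obtain ⟨W, hW⟩ : ∃ W, W = ∑ a ∈ Icc 1 N, w a := ⟨_, rfl⟩
  rw [← hW] at hS
  have hW0 : 0 ≤ W := by rw [hW]; exact sum_nonneg fun a _ => hw0 a
  have hcardN : ((Icc 1 N).card : ℝ) = N := by rw [Nat.card_Icc, Nat.add_sub_cancel]
  obtain ⟨e, he⟩ : ∃ e : ℝ, e = N / ℓ ^ (U + 1) := ⟨_, rfl⟩
  have he0 : 0 < e := by rw [he]; positivity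
  have he4 : 8 * e ≤ N / ℓ ^ U := by
    have e1 : N / ℓ ^ U = ℓ * e := by
      rw [he, pow_succ]
      field_simp
    rw [e1]
    exact mul_le_mul_of_nonneg_right h4 he0.le
  refine (h6 hyK hy2 S hSx fun m hm => ?_).trans ?_
  · obtain ⟨g1, g2, g3⟩ := hS m hm
    refine ⟨g1, g2, ?_⟩
    by_contra hcon
    rw [not_lt, ← he] at hcon
    obtain ⟨b, hb⟩ : ∃ b, b = (s m).toNat := ⟨_, rfl⟩
    rw [← hb] at hcon g3
    have hb1 : 1 ≤ b := by omega
    have hbN : b ≤ N := by omega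
    obtain ⟨T, hT⟩ : ∃ T, T = ∑ a ∈ Icc 1 N, w a * av y (a + b) := ⟨_, rfl⟩
    have hTW : |T - W| ≤ e := by
      have e1 : T - W = ∑ a ∈ Icc 1 N, w a * (av y (a + b) - 1) := by
        rw [hT, hW, ← sum_sub_distrib]
        apply sum_congr rfl
        intro a _
        ring
      rw [e1]
      exact hcon
    rw [abs_le] at hTW
    obtain ⟨R, hR⟩ : ∃ R, R = ∑ a ∈ Icc 1 N, w a * Z N b y a := ⟨_, rfl⟩
    -- lower bound for R
    have k1 : T ≤ (1 + η) * R := by
      rw [hT, hR, mul_sum]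
      apply sum_le_sum
      intro a ha
      rw [mem_Icc] at ha
      have e1 := av_low N (a + b) y (by omega) ((1 + η) * ℓ) h2
      have e2 : (1 + η) * ℓ * pn (a + b) y / y = (1 + η) * Z N b y a := by
        unfold Z
        rw [← hℓ]
        ring
      rw [e2] at e1
      calc w a * av y (a + b) ≤ w a * ((1 + η) * Z N b y a) := mul_le_mul_of_nonneg_left e1 (hw0 a)
        _ = _ := by ring
    -- upper bound for R
    obtain ⟨X, hX⟩ : ∃ X : ℕ, X = ⌈(N : ℝ) ^ (1 - η)⌉₊ := ⟨_, rfl⟩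
    have hX1 : 1 ≤ (N : ℝ) ^ (1 - η) := Real.one_le_rpow hN1 (by linarith)
    have hX2 : (N : ℝ) ^ (1 - η) ≤ X := by rw [hX]; exact Nat.le_ceil _
    have hX3 : (X : ℝ) ≤ 2 * (N : ℝ) ^ (1 - η) := by
      have := Nat.ceil_lt_add_one (show 0 ≤ (N : ℝ) ^ (1 - η) by linarith)
      rw [← hX] at this
      linarith
    have hX4 : 1 ≤ X := by
      have : (1 : ℝ) ≤ X := hX1.trans hX2
      exact_mod_cast this
    have hX5 : (1 - η) * ℓ ≤ Real.log (X : ℝ) := by
      rw [hℓ, ← Real.log_rpow hN0]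
      exact Real.log_le_log (by positivity) hX2
    have k2 : (1 - η) * R ≤ T + e := by
      have e1 : (1 - η) * R = ∑ a ∈ Icc 1 N, w a * ((1 - η) * Z N b y a) := by
        rw [hR, mul_sum]
        apply sum_congr rfl
        intro a _
        ring
      rw [e1, ← sum_filter_add_sum_filter_not (Icc 1 N) (fun a => a + b < X)]
      have e2 : ∑ a ∈ (Icc 1 N).filter (fun a => a + b < X), w a * ((1 - η) * Z N b y a) ≤ e := by
        have e3 : ∀ a ∈ (Icc 1 N).filter (fun a => a + b < X), w a * ((1 - η) * Z N b y a) ≤ ℓ := by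
          intro a _
          have f1 := Z_le N b y a hy
          rw [← hℓ] at f1
          have f2 := Z_nonneg N b y a
          calc w a * ((1 - η) * Z N b y a) ≤ 1 * (1 * ℓ) := by
                apply mul_le_mul (hw1 a) _ (by nlinarith) (by norm_num)
                apply mul_le_mul (by linarith) f1 f2 (by norm_num)
            _ = ℓ := by ring
        refine (sum_le_sum e3).trans ?_
        rw [sum_const, nsmul_eq_mul]
        have e4 : (((Icc 1 N).filter (fun a => a + b < X)).card : ℝ) ≤ X := by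
          have e5 : (Icc 1 N).filter (fun a => a + b < X) ⊆ range X := by
            intro a ha
            rw [mem_filter] at ha
            rw [mem_range]
            omega
          have e6 := card_le_card e5
          rw [card_range] at e6
          exact_mod_cast e6
        calc (((Icc 1 N).filter (fun a => a + b < X)).card : ℝ) * ℓ ≤ (2 * (N : ℝ) ^ (1 - η)) * ℓ := by
              apply mul_le_mul_of_nonneg_right (e4.trans hX3) hℓ0.le
          _ = (2 * ℓ ^ (U + 2)) * (N : ℝ) ^ (1 - η) / ℓ ^ (U + 1) := by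
              rw [show U + 2 = U + 1 + 1 by ring, pow_succ ℓ (U + 1)]
              field_simp
          _ ≤ (N : ℝ) ^ η * (N : ℝ) ^ (1 - η) / ℓ ^ (U + 1) := by gcongr
          _ = e := by
              rw [← Real.rpow_add hN0, he]
              norm_num
      have e3 : ∑ a ∈ (Icc 1 N).filter (fun a => ¬ (a + b < X)), w a * ((1 - η) * Z N b y a) ≤ T := by
        have e4 : ∑ a ∈ (Icc 1 N).filter (fun a => ¬ (a + b < X)), w a * ((1 - η) * Z N b y a) ≤
            ∑ a ∈ (Icc 1 N).filter (fun a => ¬ (a + b < X)), w a * av y (a + b) := by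
          apply sum_le_sum
          intro a ha
          rw [mem_filter] at ha
          apply mul_le_mul_of_nonneg_left _ (hw0 a)
          have f1 := av_up (a + b) y X hX4 (by omega) ((1 - η) * ℓ) hX5
          have f2 : (1 - η) * ℓ * pn (a + b) y / y = (1 - η) * Z N b y a := by
            unfold Z
            rw [← hℓ]
            ring
          rw [f2] at f1
          exact f1
        refine e4.trans ?_
        rw [hT]
        exact sum_le_sum_of_subset_of_nonneg (filter_subset _ _) fun a _ _ => mul_nonneg (hw0 a) (av_nonneg _ _)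
      linarith
    have hR0 : 0 ≤ R := by rw [hR]; exact sum_nonneg fun a _ => mul_nonneg (hw0 a) (Z_nonneg _ _ _ _)
    -- the truncation
    obtain ⟨P, hP⟩ : ∃ P, P = ∑ a ∈ Icc 1 N, w a * Y M N b y a := ⟨_, rfl⟩
    have k3 : P ≤ R := by
      rw [hP, hR]
      apply sum_le_sum
      intro a _
      exact mul_le_mul_of_nonneg_left (Y_le_Z _ _ _ _) (hw0 a)
    have k4 : R - P ≤ e := by
      have e1 : R - P = ∑ a ∈ Icc 1 N, w a * (Z N b y a - Y M N b y a) := by
        rw [hR, hP, ← sum_sub_distrib]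
        apply sum_congr rfl
        intro a _
        ring
      rw [e1]
      have e2 : ∑ a ∈ Icc 1 N, w a * (Z N b y a - Y M N b y a) =
          ∑ a ∈ (Icc 1 N).filter (fun a => M < Z N b y a), w a * (Z N b y a - Y M N b y a) := by
        symm
        apply sum_subset (filter_subset _ _)
        intro a ha hna
        rw [mem_filter, not_and] at hna
        have f1 := not_lt.1 (hna ha)
        unfold Y
        rw [min_eq_left f1, sub_self, mul_zero]
      rw [e2]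
      have e3 : ∀ a ∈ (Icc 1 N).filter (fun a => M < Z N b y a), w a * (Z N b y a - Y M N b y a) ≤ ℓ := by
        intro a _
        have f1 := Z_le N b y a hy
        rw [← hℓ] at f1
        have f2 := Y_nonneg (by linarith : (0 : ℝ) ≤ M) N b y a
        have f3 := Y_le_Z (M := M) N b y a
        calc w a * (Z N b y a - Y M N b y a) ≤ 1 * (Z N b y a - Y M N b y a) :=
              mul_le_mul_of_nonneg_right (hw1 a) (by linarith)
          _ ≤ ℓ := by linarith
      refine (sum_le_sum e3).trans ?_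
      rw [sum_const, nsmul_eq_mul]
      have e4 := h3 b (mem_Icc.2 ⟨hb1, hbN⟩) y hyU ((Icc 1 N).filter (fun a => M < Z N b y a))
        (filter_subset _ _) (fun a ha => (mem_filter.1 ha).2)
      calc _ ≤ (N / ℓ ^ (U + 2)) * ℓ := mul_le_mul_of_nonneg_right e4 hℓ0.le
        _ = e := by
            rw [he, show U + 2 = U + 1 + 1 by ring, pow_succ ℓ (U + 1)]
            field_simp
    have k5 : ∑ a ∈ Icc 1 N, w a * (Y M N b y a - 1) = P - W := by
      rw [hP, hW, ← sum_sub_distrib]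
      apply sum_congr rfl
      intro a _
      ring
    rw [k5] at g3
    have k6 : |P - W| ≤ δ * W + 8 * e := by
      have hR1 : W - e ≤ (1 + η) * R := by linarith [hTW.1]
      have hR2 : (1 - η) * R ≤ W + 2 * e := by linarith [hTW.2]
      have hR3 : W - e - η * W ≤ R := by
        by_contra hc
        rw [not_le] at hc
        have : (1 + η) * R < (1 + η) * (W - e - η * W) := mul_lt_mul_of_pos_left hc (by linarith)
        have h7 : (1 + η) * (W - e - η * W) ≤ W - e := by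
          nlinarith [mul_nonneg hη0.le he0.le, mul_nonneg (mul_nonneg hη0.le hη0.le) hW0]
        linarith
      have hR4 : R ≤ W + 2 * η * W + 4 * e := by
        by_contra hc
        rw [not_le] at hc
        have h7 : (1 - η) * (W + 2 * η * W + 4 * e) < (1 - η) * R := mul_lt_mul_of_pos_left hc (by linarith)
        have h8 : W + 2 * e ≤ (1 - η) * (W + 2 * η * W + 4 * e) := by
          have f1 : 0 ≤ η * W * (1 - 2 * η) := mul_nonneg (mul_nonneg hη0.le hW0) (by linarith)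
          have f2 : 0 ≤ e * (2 - 4 * η) := mul_nonneg he0.le (by linarith)
          have f3 : (1 - η) * (W + 2 * η * W + 4 * e) = W + 2 * e + η * W * (1 - 2 * η) + e * (2 - 4 * η) := by
            ring
          linarith
        linarith
      have hδη : δ * W = 4 * (η * W) := by rw [hη]; ring
      have hηW : 0 ≤ η * W := mul_nonneg hη0.le hW0
      rw [abs_le]
      constructor <;> linarith
    linarith
  · apply div_le_div_of_nonneg_left (Nat.cast_nonneg _) (by positivity)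
    exact pow_le_pow_right₀ hℓ1 (by omega)

end Pool.Agent.NH15.CT
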