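import Mathlib

set_option autoImplicit false

/-! Products of weights along a sequence of bounded functions with means close to `1` for all the weights. -/

namespace Pool.Agent.NH15.CT

open Finset

open Classical in
/-- the weights -/
noncomputable def wt (A : Finset ℕ) (φ : ℝ → ℝ) (Y : ℕ → ℕ → ℝ) (u j a : ℕ) : ℝ :=
  (if a ∈ A then 1 else 0) * ∏ i ∈ Ico u j, φ (Y i a)

/-- the three functions -/
noncomputable def phi (t : ℝ) (q : Fin 3) (v : ℝ) : ℝ :=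
  if q = 0 then Real.exp (-(t * v)) else if q = 1 then Real.exp (t * (v - 5)) else if v = 0 then 1 else 0

lemma phi_one' (t v : ℝ) : phi t 1 v = Real.exp (t * (v - 5)) := by simp [phi]

lemma phi_two' (t v : ℝ) : phi t 2 v = if v = 0 then 1 else 0 := by simp [phi]

lemma phi_nonneg (t : ℝ) (q : Fin 3) (v : ℝ) : 0 ≤ phi t q v := by
  unfold phi
  split_ifs <;> positivity

lemma phi_le (t : ℝ) (ht : 0 ≤ t) (q : Fin 3) (v : ℝ) (hv : 0 ≤ v) (hv5 : v ≤ 5) : phi t q v ≤ 1 := by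
  unfold phi
  split_ifs
  · rw [Real.exp_le_one_iff]
    have := mul_nonneg ht hv
    linarith
  · rw [Real.exp_le_one_iff]
    nlinarith
  · exact le_rfl
  · norm_num

lemma wt_nonneg {A : Finset ℕ} {φ : ℝ → ℝ} {Y : ℕ → ℕ → ℝ} {u j a : ℕ} (h : ∀ v, 0 ≤ φ v) :
    0 ≤ wt A φ Y u j a := by
  unfold wt
  apply mul_nonneg
  · split_ifs <;> norm_num
  · exact prod_nonneg fun i _ => h _

lemma wt_le {A : Finset ℕ} {φ : ℝ → ℝ} {Y : ℕ → ℕ → ℝ} {u j a : ℕ} (h : ∀ v, 0 ≤ φ v)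
    (h1 : ∀ i, φ (Y i a) ≤ 1) : wt A φ Y u j a ≤ 1 := by
  unfold wt
  have h2 : ∏ i ∈ Ico u j, φ (Y i a) ≤ 1 := prod_le_one (fun i _ => h _) fun i _ => h1 i
  have h3 : 0 ≤ ∏ i ∈ Ico u j, φ (Y i a) := prod_nonneg fun i _ => h _
  split_ifs
  · rw [one_mul]; exact h2
  · rw [zero_mul]; norm_num

lemma wt_succ {A : Finset ℕ} {φ : ℝ → ℝ} {Y : ℕ → ℕ → ℝ} {u j a : ℕ} (h : u ≤ j) :
    wt A φ Y u (j + 1) a = wt A φ Y u j a * φ (Y j a) := by
  unfold wt
  rw [prod_Ico_succ_top h, mul_assoc]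

lemma chain (I A : Finset ℕ) (hA : A ⊆ I) (φ : ℝ → ℝ) (Y : ℕ → ℕ → ℝ) (M α β δ e ρ : ℝ)
    (hφ0 : ∀ v, 0 ≤ φ v) (hφ : ∀ v, 0 ≤ v → v ≤ M → φ v ≤ α - β * v)
    (hY0 : ∀ i a, 0 ≤ Y i a) (hYM : ∀ i a, Y i a ≤ M) (hβ : |β| ≤ 1) (he : 0 ≤ e)
    (hρ : α - β + |β| * δ ≤ ρ) (hρ0 : 0 ≤ ρ) (hρ1 : ρ ≤ 1) (u k : ℕ) (huk : u ≤ k)
    (h : ∀ j, u ≤ j → j < k → |∑ a ∈ I, wt A φ Y u j a * (Y j a - 1)| ≤
      δ * ∑ a ∈ I, wt A φ Y u j a + e) :
    ∑ a ∈ I, wt A φ Y u k a ≤ ρ ^ (k - u) * A.card + (k - u : ℕ) * e := by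
  classical
  induction k, huk using Nat.le_induction with
  | base =>
    rw [Nat.sub_self, pow_zero, one_mul, Nat.cast_zero, zero_mul, add_zero]
    apply le_of_eq
    have h1 : ∀ a ∈ I, wt A φ Y u u a = if a ∈ A then 1 else 0 := by
      intro a _
      unfold wt
      rw [Ico_self, prod_empty, mul_one]
    rw [sum_congr rfl h1, sum_ite, sum_const, sum_const_zero, add_zero, nsmul_eq_mul, mul_one]
    congr 2
    rw [filter_mem_eq_inter, inter_eq_right]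
    exact hA
  | succ k hk ih =>
    have ih' := ih fun j hj hjk => h j hj (by omega)
    have h1 := h k hk (by omega)
    obtain ⟨W, hW⟩ : ∃ W, W = ∑ a ∈ I, wt A φ Y u k a := ⟨_, rfl⟩
    obtain ⟨T, hT⟩ : ∃ T, T = ∑ a ∈ I, wt A φ Y u k a * (Y k a - 1) := ⟨_, rfl⟩
    rw [← hW, ← hT] at h1
    rw [← hW] at ih'
    have hW0 : 0 ≤ W := by rw [hW]; exact sum_nonneg fun a _ => wt_nonneg hφ0
    have h2 : ∑ a ∈ I, wt A φ Y u (k + 1) a ≤ α * W - β * (T + W) := by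
      have h3 : ∀ a ∈ I, wt A φ Y u (k + 1) a ≤ wt A φ Y u k a * (α - β * Y k a) := by
        intro a _
        rw [wt_succ hk]
        exact mul_le_mul_of_nonneg_left (hφ _ (hY0 k a) (hYM k a)) (wt_nonneg hφ0)
      refine (sum_le_sum h3).trans (le_of_eq ?_)
      rw [hW, hT, ← sum_add_distrib, mul_sum, mul_sum, ← sum_sub_distrib]
      apply sum_congr rfl
      intro a _
      ring
    have h4 : -(β * T) ≤ |β| * (δ * W + e) := by
      calc -(β * T) ≤ |β * T| := neg_le_abs _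
        _ = |β| * |T| := abs_mul _ _
        _ ≤ _ := mul_le_mul_of_nonneg_left h1 (abs_nonneg _)
    have h5 : |β| * e ≤ e := by
      calc |β| * e ≤ 1 * e := mul_le_mul_of_nonneg_right hβ he
        _ = e := one_mul e
    have h6 : ∑ a ∈ I, wt A φ Y u (k + 1) a ≤ ρ * W + e := by
      have h7 : (α - β + |β| * δ) * W ≤ ρ * W := mul_le_mul_of_nonneg_right hρ hW0
      calc ∑ a ∈ I, wt A φ Y u (k + 1) a ≤ α * W - β * (T + W) := h2
        _ = (α - β) * W + -(β * T) := by ring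
        _ ≤ (α - β) * W + |β| * (δ * W + e) := by linarith
        _ = (α - β + |β| * δ) * W + |β| * e := by ring
        _ ≤ _ := by linarith
    have h8 : ρ * W ≤ ρ * (ρ ^ (k - u) * A.card + (k - u : ℕ) * e) := mul_le_mul_of_nonneg_left ih' hρ0
    have h9 : ρ * ((k - u : ℕ) * e) ≤ (k - u : ℕ) * e := by
      have : 0 ≤ ((k - u : ℕ) : ℝ) * e := by positivity
      calc ρ * ((k - u : ℕ) * e) ≤ 1 * ((k - u : ℕ) * e) := mul_le_mul_of_nonneg_right hρ1 this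
        _ = _ := one_mul _
    have e1 : k + 1 - u = (k - u) + 1 := by omega
    rw [e1, pow_succ]
    push_cast
    calc ∑ a ∈ I, wt A φ Y u (k + 1) a ≤ ρ * W + e := h6
      _ ≤ ρ * (ρ ^ (k - u) * A.card + (k - u : ℕ) * e) + e := by linarith
      _ = ρ ^ (k - u) * ρ * A.card + ρ * ((k - u : ℕ) * e) + e := by ring
      _ ≤ ρ ^ (k - u) * ρ * A.card + (k - u : ℕ) * e + e := by linarith
      _ = _ := by ring

lemma phi0_le (t v : ℝ) (ht : 0 ≤ t) (ht1 : t ≤ 1 / 5) (hv : 0 ≤ v) (hv5 : v ≤ 5) :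
    phi t 0 v ≤ 1 - (t - 5 * t ^ 2) * v := by
  have e : phi t 0 v = Real.exp (-(t * v)) := by simp [phi]
  rw [e]
  have htv : t * v ≤ 1 := by nlinarith
  have htv0 : 0 ≤ t * v := mul_nonneg ht hv
  have h1 := Real.abs_exp_sub_one_sub_id_le (x := -(t * v)) (by rw [abs_neg, abs_of_nonneg htv0]; exact htv)
  have h2 := (abs_le.1 h1).2
  have h3 : t ^ 2 * v ^ 2 ≤ 5 * t ^ 2 * v := by
    have : 0 ≤ t ^ 2 * v * (5 - v) := mul_nonneg (mul_nonneg (sq_nonneg t) hv) (by linarith)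
    nlinarith
  nlinarith

lemma phi1_le (t v : ℝ) (ht : 0 ≤ t) (ht1 : t ≤ 1 / 5) (hv : 0 ≤ v) (hv5 : v ≤ 5) :
    phi t 1 v ≤ Real.exp (-(5 * t)) - (-(Real.exp (-(5 * t)) * (t + 5 * t ^ 2))) * v := by
  have e : phi t 1 v = Real.exp (-(5 * t)) * Real.exp (t * v) := by
    rw [phi_one', ← Real.exp_add]
    congr 1
    ring
  rw [e]
  have htv : t * v ≤ 1 := by nlinarith
  have htv0 : 0 ≤ t * v := mul_nonneg ht hv
  have h1 := Real.abs_exp_sub_one_sub_id_le (x := t * v) (by rw [abs_of_nonneg htv0]; exact htv)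
  have h2 := (abs_le.1 h1).2
  have h3 : t ^ 2 * v ^ 2 ≤ 5 * t ^ 2 * v := by
    have : 0 ≤ t ^ 2 * v * (5 - v) := mul_nonneg (mul_nonneg (sq_nonneg t) hv) (by linarith)
    nlinarith
  have h4 : Real.exp (t * v) ≤ 1 + (t + 5 * t ^ 2) * v := by nlinarith
  calc Real.exp (-(5 * t)) * Real.exp (t * v) ≤ Real.exp (-(5 * t)) * (1 + (t + 5 * t ^ 2) * v) :=
        mul_le_mul_of_nonneg_left h4 (Real.exp_pos _).le
    _ = _ := by ring

lemma phi2_le (t v M : ℝ) (hM : 0 < M) (hv : 0 ≤ v) (hvM : v ≤ M) :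
    phi t 2 v ≤ 1 - (1 / M) * v := by
  rw [phi_two']
  split_ifs with h
  · rw [h]; simp
  · have : 1 / M * v ≤ 1 := by
      rw [one_div, inv_mul_le_iff₀ hM, mul_one]
      exact hvM
    linarith

/-- the number of the points with a small or a large sum -/
lemma block (I A : Finset ℕ) (hA : A ⊆ I) (Y : ℕ → ℕ → ℝ) (M ε e : ℝ) (hM : M ≤ 5)
    (hε : 0 < ε) (hε1 : ε ≤ 1 / 4)
    (hY0 : ∀ i a, 0 ≤ Y i a) (hYM : ∀ i a, Y i a ≤ M) (he : 0 ≤ e) (u k : ℕ) (huk : u ≤ k)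
    (h : ∀ q : Fin 3, ∀ j, u ≤ j → j < k → |∑ a ∈ I, wt A (phi (ε / 20) q) Y u j a * (Y j a - 1)| ≤
      (ε / 40) * ∑ a ∈ I, wt A (phi (ε / 20) q) Y u j a + e) :
    ((A.filter (fun a => (ε / 2) * (k - u : ℕ) < |∑ i ∈ Ico u k, Y i a - (k - u : ℕ)|)).card : ℝ) ≤
      2 * Real.exp (-(ε ^ 2 * (k - u : ℕ) / 100)) * A.card +
        2 * Real.exp (ε / 4 * (k - u : ℕ)) * ((k - u : ℕ) * e) := by
  classical
  obtain ⟨t, ht⟩ : ∃ t, t = ε / 20 := ⟨_, rfl⟩
  obtain ⟨δ, hδ⟩ : ∃ δ, δ = ε / 40 := ⟨_, rfl⟩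
  obtain ⟨n, hn⟩ : ∃ n, n = k - u := ⟨_, rfl⟩
  rw [← ht, ← hδ] at h
  rw [← hn]
  have ht0 : 0 < t := by rw [ht]; positivity
  have ht1 : t ≤ 1 / 80 := by rw [ht]; linarith
  have hδ0 : 0 < δ := by rw [hδ]; positivity
  have hδ1 : δ ≤ 1 / 160 := by rw [hδ]; linarith
  have hn0 : (0 : ℝ) ≤ n := Nat.cast_nonneg n
  have hε20 : ε = 20 * t := by rw [ht]; ring
  have hδt : δ = t / 2 := by rw [hδ, ht]; ring
  -- the lower tail
  obtain ⟨β0, hβ0⟩ : ∃ β0, β0 = t - 5 * t ^ 2 := ⟨_, rfl⟩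
  have hβ01 : 0 ≤ β0 := by rw [hβ0]; nlinarith
  have hβ02 : β0 ≤ t := by rw [hβ0]; nlinarith [sq_nonneg t]
  obtain ⟨ρ0, hρ0⟩ : ∃ ρ0, ρ0 = 1 - β0 + |β0| * δ := ⟨_, rfl⟩
  have hρ00 : 0 ≤ ρ0 := by
    rw [hρ0, abs_of_nonneg hβ01]
    have := mul_nonneg hβ01 hδ0.le
    linarith
  have hρ01 : ρ0 ≤ 1 := by
    rw [hρ0, abs_of_nonneg hβ01]
    nlinarith
  have c0 := chain I A hA (phi t 0) Y M 1 β0 δ e ρ0 (fun v => phi_nonneg t 0 v)
    (fun v hv hvM => by rw [hβ0]; exact phi0_le t v ht0.le (by linarith) hv (hvM.trans hM)) hY0 hYM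
    (by rw [abs_of_nonneg hβ01]; linarith) he (by rw [hρ0]) hρ00 hρ01 u k huk (h 0)
  -- the upper tail
  obtain ⟨E5, hE5⟩ : ∃ E5, E5 = Real.exp (-(5 * t)) := ⟨_, rfl⟩
  have hE50 : 0 < E5 := by rw [hE5]; exact Real.exp_pos _
  have hE51 : E5 ≤ 1 := by rw [hE5, Real.exp_le_one_iff]; linarith
  obtain ⟨β1, hβ1⟩ : ∃ β1, β1 = -(E5 * (t + 5 * t ^ 2)) := ⟨_, rfl⟩
  have hβ11 : |β1| = E5 * (t + 5 * t ^ 2) := by
    rw [hβ1, abs_neg, abs_of_nonneg]
    positivity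
  have hβ12 : |β1| ≤ 1 := by
    rw [hβ11]
    have : t + 5 * t ^ 2 ≤ 1 := by nlinarith
    calc E5 * (t + 5 * t ^ 2) ≤ 1 * 1 := mul_le_mul hE51 this (by positivity) (by norm_num)
      _ = 1 := one_mul 1
  obtain ⟨ρ1, hρ1⟩ : ∃ ρ1, ρ1 = E5 * Real.exp ((t + 5 * t ^ 2) * (1 + δ)) := ⟨_, rfl⟩
  have hρ10 : 0 ≤ ρ1 := by rw [hρ1]; positivity
  have hρ11 : ρ1 ≤ 1 := by
    rw [hρ1, hE5, ← Real.exp_add, Real.exp_le_one_iff]
    nlinarith
  have hρ12 : E5 - β1 + |β1| * δ ≤ ρ1 := by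
    rw [hβ11, hβ1, hρ1]
    have e1 := Real.add_one_le_exp ((t + 5 * t ^ 2) * (1 + δ))
    calc E5 - -(E5 * (t + 5 * t ^ 2)) + E5 * (t + 5 * t ^ 2) * δ =
          E5 * ((t + 5 * t ^ 2) * (1 + δ) + 1) := by ring
      _ ≤ _ := mul_le_mul_of_nonneg_left e1 hE50.le
  have c1 := chain I A hA (phi t 1) Y M E5 β1 δ e ρ1 (fun v => phi_nonneg t 1 v)
    (fun v hv hvM => by rw [hβ1, hE5]; exact phi1_le t v ht0.le (by linarith) hv (hvM.trans hM)) hY0 hYM
    hβ12 he hρ12 hρ10 hρ11 u k huk (h 1)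
  rw [← hn] at c0 c1
  -- the exceptional sets
  obtain ⟨D0, hD0⟩ : ∃ D0, D0 = A.filter (fun a => ∑ i ∈ Ico u k, Y i a < (1 - ε / 2) * n) := ⟨_, rfl⟩
  obtain ⟨D1, hD1⟩ : ∃ D1, D1 = A.filter (fun a => (1 + ε / 2) * n < ∑ i ∈ Ico u k, Y i a) := ⟨_, rfl⟩
  have hsub : A.filter (fun a => (ε / 2) * n < |∑ i ∈ Ico u k, Y i a - n|) ⊆ D0 ∪ D1 := by
    intro a ha
    rw [mem_filter] at ha
    rw [mem_union, hD0, hD1, mem_filter, mem_filter]
    rcases lt_abs.1 ha.2 with h1 | h1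
    · right
      exact ⟨ha.1, by linarith⟩
    · left
      exact ⟨ha.1, by linarith⟩
  have m0 : (D0.card : ℝ) ≤ Real.exp (t * ((1 - ε / 2) * n)) * ∑ a ∈ I, wt A (phi t 0) Y u k a := by
    rw [mul_sum]
    calc (D0.card : ℝ) = ∑ _a ∈ D0, (1 : ℝ) := by rw [sum_const, nsmul_eq_mul, mul_one]
      _ ≤ ∑ a ∈ D0, Real.exp (t * ((1 - ε / 2) * n)) * wt A (phi t 0) Y u k a := by
          apply sum_le_sum
          intro a ha
          rw [hD0, mem_filter] at ha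
          have e1 : wt A (phi t 0) Y u k a = Real.exp (-(t * ∑ i ∈ Ico u k, Y i a)) := by
            unfold wt
            rw [if_pos ha.1, one_mul, mul_sum, ← sum_neg_distrib, Real.exp_sum]
            apply prod_congr rfl
            intro i _
            simp [phi]
          rw [e1, ← Real.exp_add]
          apply Real.one_le_exp
          nlinarith [ha.2]
      _ ≤ _ := by
          apply sum_le_sum_of_subset_of_nonneg
          · rw [hD0]
            exact (filter_subset _ _).trans hA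
          · intro a _ _
            exact mul_nonneg (Real.exp_pos _).le (wt_nonneg fun v => phi_nonneg t 0 v)
  have m1 : (D1.card : ℝ) ≤ Real.exp (t * ((4 - ε / 2) * n)) * ∑ a ∈ I, wt A (phi t 1) Y u k a := by
    rw [mul_sum]
    calc (D1.card : ℝ) = ∑ _a ∈ D1, (1 : ℝ) := by rw [sum_const, nsmul_eq_mul, mul_one]
      _ ≤ ∑ a ∈ D1, Real.exp (t * ((4 - ε / 2) * n)) * wt A (phi t 1) Y u k a := by
          apply sum_le_sum
          intro a ha
          rw [hD1, mem_filter] at ha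
          have e1 : wt A (phi t 1) Y u k a = Real.exp (t * (∑ i ∈ Ico u k, Y i a - 5 * n)) := by
            have e2 : t * (∑ i ∈ Ico u k, Y i a - 5 * n) = ∑ i ∈ Ico u k, t * (Y i a - 5) := by
              rw [← mul_sum, sum_sub_distrib, sum_const, Nat.card_Ico, nsmul_eq_mul, ← hn]
              ring
            unfold wt
            rw [if_pos ha.1, one_mul, e2, Real.exp_sum]
            apply prod_congr rfl
            intro i _
            rw [phi_one']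
          rw [e1, ← Real.exp_add]
          apply Real.one_le_exp
          nlinarith [ha.2]
      _ ≤ _ := by
          apply sum_le_sum_of_subset_of_nonneg
          · rw [hD1]
            exact (filter_subset _ _).trans hA
          · intro a _ _
            exact mul_nonneg (Real.exp_pos _).le (wt_nonneg fun v => phi_nonneg t 1 v)
  -- the estimates
  have hA0 : (0 : ℝ) ≤ A.card := Nat.cast_nonneg _
  have r0 : Real.exp (t * ((1 - ε / 2) * n)) * ρ0 ^ n ≤ Real.exp (-(ε ^ 2 * n / 100)) := by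
    have e1 : ρ0 ≤ Real.exp (-(β0 * (1 - δ))) := by
      have := Real.add_one_le_exp (-(β0 * (1 - δ)))
      rw [hρ0, abs_of_nonneg hβ01]
      linarith
    calc Real.exp (t * ((1 - ε / 2) * n)) * ρ0 ^ n ≤
          Real.exp (t * ((1 - ε / 2) * n)) * (Real.exp (-(β0 * (1 - δ)))) ^ n := by
            apply mul_le_mul_of_nonneg_left _ (Real.exp_pos _).le
            exact pow_le_pow_left₀ hρ00 e1 n
      _ = Real.exp (n * (t * (1 - ε / 2) - β0 * (1 - δ))) := by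
          rw [← Real.exp_nat_mul, ← Real.exp_add]
          congr 1
          ring
      _ ≤ _ := by
          apply Real.exp_le_exp.2
          have e2 : t * (1 - ε / 2) - β0 * (1 - δ) ≤ -(ε ^ 2 / 100) := by
            rw [hβ0, hδt, hε20]
            nlinarith [sq_nonneg t, pow_pos ht0 3, mul_pos ht0 ht0]
          calc (n : ℝ) * (t * (1 - ε / 2) - β0 * (1 - δ)) ≤ n * (-(ε ^ 2 / 100)) :=
                mul_le_mul_of_nonneg_left e2 hn0
            _ = _ := by ring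
  have r1 : Real.exp (t * ((4 - ε / 2) * n)) * ρ1 ^ n ≤ Real.exp (-(ε ^ 2 * n / 100)) := by
    rw [hρ1, hE5, ← Real.exp_add, ← Real.exp_nat_mul, ← Real.exp_add]
    apply Real.exp_le_exp.2
    have e2 : t * (4 - ε / 2) + (-(5 * t) + (t + 5 * t ^ 2) * (1 + δ)) ≤ -(ε ^ 2 / 100) := by
      rw [hδt, hε20]
      have h3 : t ^ 3 ≤ t ^ 2 / 80 := by
        calc t ^ 3 = t ^ 2 * t := by ring
          _ ≤ t ^ 2 * (1 / 80) := mul_le_mul_of_nonneg_left ht1 (sq_nonneg t)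
          _ = _ := by ring
      nlinarith [sq_nonneg t]
    calc t * ((4 - ε / 2) * n) + n * (-(5 * t) + (t + 5 * t ^ 2) * (1 + δ)) =
          n * (t * (4 - ε / 2) + (-(5 * t) + (t + 5 * t ^ 2) * (1 + δ))) := by ring
      _ ≤ n * (-(ε ^ 2 / 100)) := mul_le_mul_of_nonneg_left e2 hn0
      _ = _ := by ring
  have x0 : Real.exp (t * ((1 - ε / 2) * n)) ≤ Real.exp (ε / 4 * n) := by
    apply Real.exp_le_exp.2
    have : t * (1 - ε / 2) ≤ ε / 4 := by rw [hε20]; nlinarith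
    calc t * ((1 - ε / 2) * n) = (t * (1 - ε / 2)) * n := by ring
      _ ≤ _ := mul_le_mul_of_nonneg_right this hn0
  have x1 : Real.exp (t * ((4 - ε / 2) * n)) ≤ Real.exp (ε / 4 * n) := by
    apply Real.exp_le_exp.2
    have : t * (4 - ε / 2) ≤ ε / 4 := by rw [hε20]; nlinarith
    calc t * ((4 - ε / 2) * n) = (t * (4 - ε / 2)) * n := by ring
      _ ≤ _ := mul_le_mul_of_nonneg_right this hn0
  have hne : 0 ≤ (n : ℝ) * e := mul_nonneg hn0 he
  have y0 : (D0.card : ℝ) ≤ Real.exp (-(ε ^ 2 * n / 100)) * A.card + Real.exp (ε / 4 * n) * (n * e) := by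
    calc (D0.card : ℝ) ≤ Real.exp (t * ((1 - ε / 2) * n)) * (ρ0 ^ n * A.card + n * e) :=
          m0.trans (mul_le_mul_of_nonneg_left c0 (Real.exp_pos _).le)
      _ = (Real.exp (t * ((1 - ε / 2) * n)) * ρ0 ^ n) * A.card + Real.exp (t * ((1 - ε / 2) * n)) * (n * e) := by ring
      _ ≤ _ := add_le_add (mul_le_mul_of_nonneg_right r0 hA0) (mul_le_mul_of_nonneg_right x0 hne)
  have y1 : (D1.card : ℝ) ≤ Real.exp (-(ε ^ 2 * n / 100)) * A.card + Real.exp (ε / 4 * n) * (n * e) := by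
    calc (D1.card : ℝ) ≤ Real.exp (t * ((4 - ε / 2) * n)) * (ρ1 ^ n * A.card + n * e) :=
          m1.trans (mul_le_mul_of_nonneg_left c1 (Real.exp_pos _).le)
      _ = (Real.exp (t * ((4 - ε / 2) * n)) * ρ1 ^ n) * A.card + Real.exp (t * ((4 - ε / 2) * n)) * (n * e) := by ring
      _ ≤ _ := add_le_add (mul_le_mul_of_nonneg_right r1 hA0) (mul_le_mul_of_nonneg_right x1 hne)
  have hc : ((A.filter (fun a => (ε / 2) * n < |∑ i ∈ Ico u k, Y i a - n|)).card : ℝ) ≤ D0.card + D1.card := by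
    exact_mod_cast (card_le_card hsub).trans (card_union_le _ _)
  linarith

/-- the number of the points where all the functions vanish -/
lemma zeros (I A : Finset ℕ) (hA : A ⊆ I) (Y : ℕ → ℕ → ℝ) (M ε e t : ℝ) (hM : M ≤ 4 + ε) (hM0 : 4 < M)
    (hε : 0 < ε) (hε1 : ε ≤ 1 / 4)
    (hY0 : ∀ i a, 0 ≤ Y i a) (hYM : ∀ i a, Y i a ≤ M) (he : 0 ≤ e) (k : ℕ)
    (h : ∀ j, j < k → |∑ a ∈ I, wt A (phi t 2) Y 0 j a * (Y j a - 1)| ≤
      (ε / 40) * ∑ a ∈ I, wt A (phi t 2) Y 0 j a + e) :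
    ((A.filter (fun a => ∀ i < k, Y i a = 0)).card : ℝ) ≤ (3 / 4 + ε) ^ k * A.card + k * e := by
  classical
  have hMp : 0 < M := by linarith
  have h1M : 0 < 1 / M := by positivity
  have h1M1 : 1 / M ≤ 1 / 4 := by
    apply one_div_le_one_div_of_le (by norm_num) (by linarith)
  have h1M2 : (1 / 4 - ε / 16) ≤ 1 / M := by
    rw [le_div_iff₀ hMp]
    nlinarith
  have c := chain I A hA (phi t 2) Y M 1 (1 / M) (ε / 40) e (3 / 4 + ε) (fun v => phi_nonneg t 2 v)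
    (fun v hv hvM => phi2_le t v M hMp hv hvM) hY0 hYM (by rw [abs_of_pos h1M]; linarith) he
    (by rw [abs_of_pos h1M]; nlinarith) (by linarith) (by linarith) 0 k (Nat.zero_le _)
    (fun j _ hj => h j hj)
  rw [Nat.sub_zero] at c
  refine le_trans ?_ c
  calc ((A.filter (fun a => ∀ i < k, Y i a = 0)).card : ℝ) =
        ∑ _a ∈ A.filter (fun a => ∀ i < k, Y i a = 0), (1 : ℝ) := by rw [sum_const, nsmul_eq_mul, mul_one]
    _ ≤ ∑ a ∈ A.filter (fun a => ∀ i < k, Y i a = 0), wt A (phi t 2) Y 0 k a := by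
        apply sum_le_sum
        intro a ha
        rw [mem_filter] at ha
        unfold wt
        rw [if_pos ha.1, one_mul]
        apply le_of_eq
        symm
        apply prod_eq_one
        intro i hi
        rw [mem_Ico] at hi
        rw [phi_two', if_pos (ha.2 i hi.2)]
    _ ≤ _ := by
        apply sum_le_sum_of_subset_of_nonneg
        · exact (filter_subset _ _).trans hA
        · intro a _ _
          exact wt_nonneg fun v => phi_nonneg t 2 v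

/-- sums over long intervals of indices from sums over short ones -/
lemma long_sum (S : ℕ → ℝ) (k0 k : ℕ) (lo hi : ℝ) (hk0 : 1 ≤ k0)
    (h : ∀ u v, u ≤ v → v ≤ k → k0 ≤ v - u → v - u ≤ 2 * k0 →
      lo * (v - u : ℕ) ≤ S v - S u ∧ S v - S u ≤ hi * (v - u : ℕ)) :
    ∀ v, v ≤ k → k0 ≤ v → lo * v ≤ S v - S 0 ∧ S v - S 0 ≤ hi * v := by
  intro v
  induction v using Nat.strong_induction_on with
  | _ v ih =>
    intro hv hkv
    by_cases h2 : v ≤ 2 * k0
    · have := h 0 v (Nat.zero_le _) hv (by omega) (by omega)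
      rw [Nat.sub_zero] at this
      exact this
    · have h3 := ih (v - k0) (by omega) (by omega) (by omega)
      have h4 := h (v - k0) v (by omega) hv (by omega) (by omega)
      have e : v - (v - k0) = k0 := by omega
      rw [e] at h4
      rw [Nat.cast_sub (by omega)] at h3
      constructor <;> nlinarith [h3.1, h3.2, h4.1, h4.2]

end Pool.Agent.NH15.CT
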