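import Pool.Agent.NH15.CT.W2
import Pool.Agent.NH15.CT.W3

set_option autoImplicit false

/-! Tuples of members of a family of nearly minimal energy: almost all the tuples are good for all the weights
which depend on the earlier members. -/

namespace Pool.Agent.NH15.CT

open Finset Filter
open Pool.Agent.H373R2.T7
open Pool.Agent.W301.SS
open Pool.Agent.TH646.TT

lemma fib (k x : ℕ) (j : Fin k) (Q : (Fin k → ℕ) → Prop) (R : ℝ)
    (hR : ∀ m : Fin k → ℕ, ∀ V : Finset ℕ, V ⊆ Icc 1 x → (∀ v ∈ V, Q (Function.update m j v)) → (V.card : ℝ) ≤ R)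
    (F : Finset (Fin k → ℕ)) (hF : F ⊆ Fintype.piFinset (fun _ : Fin k => Icc 1 x)) (hFQ : ∀ m ∈ F, Q m) :
    (F.card : ℝ) ≤ (x : ℝ) ^ (k - 1) * R := by
  classical
  obtain ⟨P, hP⟩ : ∃ P : Finset (Fin k → ℕ), P = Fintype.piFinset (fun i => if i = j then {0} else Icc 1 x) :=
    ⟨_, rfl⟩
  have hPc : P.card = x ^ (k - 1) := by
    rw [hP, Fintype.card_piFinset]
    have e : ∀ i : Fin k, (if i = j then ({0} : Finset ℕ) else Icc 1 x).card = if i = j then 1 else x := by
      intro i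
      split_ifs
      · exact card_singleton 0
      · rw [Nat.card_Icc, Nat.add_sub_cancel]
    rw [prod_congr rfl (fun i _ => e i), prod_ite, prod_const_one, one_mul, prod_const]
    congr 1
    rw [filter_not, filter_eq', if_pos (mem_univ j), card_sdiff_of_subset (subset_univ _), card_univ,
      Fintype.card_fin, card_singleton]
  have hmap : ∀ m ∈ F, Function.update m j 0 ∈ P := by
    intro m hm
    have h1 := Fintype.mem_piFinset.1 (hF hm)
    rw [hP, Fintype.mem_piFinset]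
    intro i
    by_cases h : i = j
    · subst h
      rw [if_pos rfl, Function.update_self]
      exact mem_singleton_self 0
    · rw [if_neg h, Function.update_of_ne h]
      exact h1 i
  have h2 := card_eq_sum_card_fiberwise (f := fun m : Fin k → ℕ => Function.update m j 0) (s := F) (t := P) hmap
  have h3 : ∀ m0 ∈ P, (((F.filter (fun m => Function.update m j 0 = m0)).card : ℕ) : ℝ) ≤ R := by
    intro m0 _
    have h4 : ∀ m ∈ F.filter (fun m => Function.update m j 0 = m0), Function.update m0 j (m j) = m := by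
      intro m hm
      rw [mem_filter] at hm
      rw [← hm.2, Function.update_idem, Function.update_eq_self]
    have h5 : ((F.filter (fun m => Function.update m j 0 = m0)).image (fun m => m j)).card =
        (F.filter (fun m => Function.update m j 0 = m0)).card := by
      apply card_image_of_injOn
      intro m hm m' hm' he
      have e1 := h4 m hm
      have e2 := h4 m' hm'
      rw [← e1, ← e2]
      simp only at he
      rw [he]
    rw [← h5]
    apply hR m0
    · intro v hv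
      rw [mem_image] at hv
      obtain ⟨m, hm, rfl⟩ := hv
      rw [mem_filter] at hm
      exact Fintype.mem_piFinset.1 (hF hm.1) j
    · intro v hv
      rw [mem_image] at hv
      obtain ⟨m, hm, rfl⟩ := hv
      rw [h4 m hm]
      rw [mem_filter] at hm
      exact hFQ m hm.1
  rw [h2]
  push_cast
  calc ∑ m0 ∈ P, ((F.filter (fun m => Function.update m j 0 = m0)).card : ℝ) ≤ ∑ _m0 ∈ P, R :=
        sum_le_sum h3
    _ = _ := by rw [sum_const, nsmul_eq_mul, hPc]; push_cast; rfl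

/-- the shifts which belong to a tuple -/
def sh (s : ℕ → ℤ) (k : ℕ) (m : Fin k → ℕ) (i : ℕ) : ℕ := if h : i < k then (s (m ⟨i, h⟩)).toNat else 0

/-- the weights which belong to the first members of a tuple -/
noncomputable def ww (ε M : ℝ) (N : ℕ) (A : Finset ℕ) (s : ℕ → ℤ) (k : ℕ) (m : Fin k → ℕ) (g : ℕ) (q : Fin 3)
    (u j a : ℕ) : ℝ :=
  wt A (phi (ε / 20) q) (fun i a => Y M N (sh s k m i) g a) u j a

lemma sh_update (s : ℕ → ℤ) (k : ℕ) (m : Fin k → ℕ) (j : Fin k) (v i : ℕ) (hi : i < j) :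
    sh s k (Function.update m j v) i = sh s k m i := by
  unfold sh
  split_ifs with h
  · rw [Function.update_of_ne]
    intro h2
    have := congrArg Fin.val h2
    simp only at this
    omega
  · rfl

lemma sh_self (s : ℕ → ℤ) (k : ℕ) (m : Fin k → ℕ) (j : Fin k) (v : ℕ) :
    sh s k (Function.update m j v) j = (s v).toNat := by
  unfold sh
  rw [dif_pos j.2]
  simp

lemma ww_update (ε M : ℝ) (N : ℕ) (A : Finset ℕ) (s : ℕ → ℤ) (k : ℕ) (m : Fin k → ℕ) (g : ℕ) (q : Fin 3)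
    (u : ℕ) (j : Fin k) (v a : ℕ) :
    ww ε M N A s k (Function.update m j v) g q u j a = ww ε M N A s k m g q u j a := by
  unfold ww wt
  congr 1
  apply prod_congr rfl
  intro i hi
  rw [mem_Ico] at hi
  simp only
  rw [sh_update s k m j v i hi.2]

lemma ww_nonneg (ε M : ℝ) (N : ℕ) (A : Finset ℕ) (s : ℕ → ℤ) (k : ℕ) (m : Fin k → ℕ) (g : ℕ) (q : Fin 3)
    (u j a : ℕ) : 0 ≤ ww ε M N A s k m g q u j a :=
  wt_nonneg fun v => phi_nonneg _ q v

lemma ww_le (ε M : ℝ) (hε : 0 < ε) (hM0 : 0 ≤ M) (hM : M ≤ 5) (N : ℕ) (A : Finset ℕ) (s : ℕ → ℤ) (k : ℕ)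
    (m : Fin k → ℕ) (g : ℕ) (q : Fin 3) (u j a : ℕ) : ww ε M N A s k m g q u j a ≤ 1 :=
  wt_le (fun v => phi_nonneg _ q v)
    (fun i => phi_le _ (by positivity) q _ (Y_nonneg hM0 _ _ _ _) ((Y_le _ _ _ _).trans hM))

/-- the tuple is good at its member `j`, for the length `g` -/
def Ok (ε M : ℝ) (D N : ℕ) (A : Finset ℕ) (s : ℕ → ℤ) (k : ℕ) (m : Fin k → ℕ) (g : ℕ) (q : Fin 3) (u : ℕ)
    (j : Fin k) : Prop :=
  |∑ a ∈ Icc 1 N, ww ε M N A s k m g q u j a * (Y M N (sh s k m j) g a - 1)| ≤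
    (ε / 40) * ∑ a ∈ Icc 1 N, ww ε M N A s k m g q u j a + N / Real.log N ^ D

theorem tuples (p B C C' U D : ℕ) (ε : ℝ) (hε : 0 < ε) (hε1 : ε ≤ 1 / 4) (hD : U + 2 * C' + 4 ≤ D) :
    ∃ K : ℕ, ∀ᶠ N : ℕ in atTop,
    ∀ (x : ℕ) (s : ℕ → ℤ), (∀ m ∈ Icc 1 x, |s m| ≤ B * N) →
    (energy p x s : ℝ) * N ≤ Real.log N ^ C * (x : ℝ) ^ (2 * p) →
    ∀ A : Finset ℕ, ∀ k : ℕ, (k : ℝ) ≤ Real.log N ^ C' → ∀ (J : ℕ) (gg : ℕ → ℕ), (J : ℝ) ≤ Real.log N ^ 2 →
    ∀ S : Finset (Fin k → ℕ), S ⊆ Fintype.piFinset (fun _ => Icc 1 x) →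
    (∀ m ∈ S, (∀ i, 0 < s (m i) ∧ s (m i) ≤ N) ∧ ¬ ∀ i < J, Real.log N ^ K ≤ gg i → gg i ≤ 2 * N →
      ∀ (q : Fin 3) (u : ℕ) (j : Fin k), u ≤ j → Ok ε (4 + ε) D N A s k m (gg i) q u j) →
    (S.card : ℝ) ≤ (x : ℝ) ^ k / Real.log N ^ U := by
  classical
  obtain ⟨K, hK⟩ := one p B C D (4 + ε) (ε / 40) (by linarith) (by positivity) (by linarith)
  refine ⟨K, ?_⟩
  filter_upwards [hK, ev_L 4] with N h1 hL x s hs hE A k hk J gg hJ S hS hbad
  obtain ⟨L, hLd⟩ : ∃ L, L = Real.log (N : ℝ) := ⟨_, rfl⟩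
  rw [← hLd] at hL hk hJ ⊢
  have hL0 : 0 < L := by linarith
  have hL1 : 1 ≤ L := by linarith
  have hone := h1 x s hs hE
  -- the sets
  obtain ⟨Q, hQ⟩ : ∃ Q : ℕ → Fin 3 → ℕ → Fin k → (Fin k → ℕ) → Prop, Q = fun (i : ℕ) (q : Fin 3) (u : ℕ) (j : Fin k) (m : Fin k → ℕ) =>
      (0 < s (m j) ∧ s (m j) ≤ N) ∧ (Real.log N ^ K ≤ gg i ∧ gg i ≤ 2 * N) ∧ u ≤ (j : ℕ) ∧
        ¬ Ok ε (4 + ε) D N A s k m (gg i) q u j := ⟨_, rfl⟩
  have hsub : S ⊆ (range J).biUnion fun i => (univ : Finset (Fin 3)).biUnion fun q => (range k).biUnion fun u =>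
      (univ : Finset (Fin k)).biUnion fun j => S.filter (Q i q u j) := by
    intro m hm
    obtain ⟨g1, g2⟩ := hbad m hm
    push Not at g2
    obtain ⟨i, hi, g3, g4, q, u, j, g5, g6⟩ := g2
    simp only [mem_biUnion, mem_range, mem_univ, true_and, mem_filter]
    refine ⟨i, hi, q, u, by have := j.2; omega, j, hm, ?_⟩
    rw [hQ]
    exact ⟨g1 j, ⟨g3, g4⟩, g5, g6⟩
  have hone' : ∀ i q u j, ((S.filter (Q i q u j)).card : ℝ) ≤ (x : ℝ) ^ (k - 1) * (x / L ^ D) := by
    intro i q u j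
    by_cases hg : Real.log N ^ K ≤ gg i ∧ gg i ≤ 2 * N ∧ u ≤ (j : ℕ)
    · apply fib k x j (Q i q u j)
      · intro m V hV hVQ
        have h2 := hone (fun a => ww ε (4 + ε) N A s k m (gg i) q u j a) (fun a => ww_nonneg _ _ _ _ _ _ _ _ _ _ _ _)
          (fun a => ww_le ε (4 + ε) hε (by linarith) (by linarith) N A s k m (gg i) q u j a) (gg i) hg.1 hg.2.1 V hV
        rw [hLd]
        apply h2
        intro v hv
        have h3 := hVQ v hv
        rw [hQ] at h3
        simp only [Function.update_self] at h3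
        obtain ⟨⟨g1, g2⟩, -, -, g3⟩ := h3
        refine ⟨g1, g2, ?_⟩
        unfold Ok at g3
        rw [not_le] at g3
        simp only [ww_update, sh_self] at g3
        exact g3
      · exact (filter_subset _ _).trans hS
      · intro m hm
        exact (mem_filter.1 hm).2
    · have : S.filter (Q i q u j) = ∅ := by
        rw [filter_eq_empty_iff]
        intro m _ hm
        rw [hQ] at hm
        exact hg ⟨hm.2.1.1, hm.2.1.2, hm.2.2.1⟩
      rw [this, card_empty, Nat.cast_zero]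
      positivity
  have h2 : (S.card : ℝ) ≤ ∑ i ∈ range J, ∑ q : Fin 3, ∑ u ∈ range k, ∑ j : Fin k, ((S.filter (Q i q u j)).card : ℝ) := by
    have h3 := card_le_card hsub
    have h4 : S.card ≤ ∑ i ∈ range J, ∑ q : Fin 3, ∑ u ∈ range k, ∑ j : Fin k, (S.filter (Q i q u j)).card := by
      refine h3.trans (card_biUnion_le.trans (sum_le_sum fun i _ => card_biUnion_le.trans (sum_le_sum fun q _ =>
        card_biUnion_le.trans (sum_le_sum fun u _ => card_biUnion_le))))
    exact_mod_cast h4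
  have h3 : ∑ i ∈ range J, ∑ q : Fin 3, ∑ u ∈ range k, ∑ j : Fin k, ((S.filter (Q i q u j)).card : ℝ) ≤
      (J : ℝ) * (3 * (k * (k * ((x : ℝ) ^ (k - 1) * (x / L ^ D))))) := by
    calc ∑ i ∈ range J, ∑ q : Fin 3, ∑ u ∈ range k, ∑ j : Fin k, ((S.filter (Q i q u j)).card : ℝ) ≤
          ∑ _i ∈ range J, ∑ _q : Fin 3, ∑ _u ∈ range k, ∑ _j : Fin k, ((x : ℝ) ^ (k - 1) * (x / L ^ D)) :=
          sum_le_sum fun i _ => sum_le_sum fun q _ => sum_le_sum fun u _ => sum_le_sum fun j _ => hone' i q u j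
      _ = _ := by
          simp only [sum_const, card_univ, Fintype.card_fin, card_range, nsmul_eq_mul]
          push_cast
          ring
  refine h2.trans (h3.trans ?_)
  rcases Nat.eq_zero_or_pos k with hk0 | hk0
  · subst hk0
    simp only [Nat.cast_zero, zero_mul, mul_zero]
    positivity
  · have e1 : (x : ℝ) ^ k = (x : ℝ) ^ (k - 1) * x := by rw [← pow_succ]; congr 1; omega
    have e2 : (J : ℝ) * (3 * (k * (k * ((x : ℝ) ^ (k - 1) * (x / L ^ D))))) =
        (3 * J * (k * k)) * ((x : ℝ) ^ k / L ^ D) := by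
      rw [e1]
      ring
    rw [e2]
    have e3 : 3 * (J : ℝ) * (k * k) ≤ L ^ (2 * C' + 4) := by
      have f1 : (k : ℝ) * k ≤ L ^ C' * L ^ C' := mul_le_mul hk hk (Nat.cast_nonneg _) (by positivity)
      have f2 : 3 * (J : ℝ) ≤ L * L ^ 2 := mul_le_mul (by linarith) hJ (Nat.cast_nonneg _) hL0.le
      calc 3 * (J : ℝ) * (k * k) ≤ (L * L ^ 2) * (L ^ C' * L ^ C') :=
            mul_le_mul f2 f1 (by positivity) (by positivity)
        _ = L ^ (2 * C' + 3) := by ring
        _ ≤ _ := pow_le_pow_right₀ hL1 (by omega)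
    have e4 : L ^ D = L ^ U * L ^ (D - U) := by rw [← pow_add]; congr 1; omega
    calc (3 * (J : ℝ) * (k * k)) * ((x : ℝ) ^ k / L ^ D) ≤ L ^ (2 * C' + 4) * ((x : ℝ) ^ k / L ^ D) :=
          mul_le_mul_of_nonneg_right e3 (by positivity)
      _ ≤ L ^ (D - U) * ((x : ℝ) ^ k / L ^ D) := by
          apply mul_le_mul_of_nonneg_right _ (by positivity)
          exact pow_le_pow_right₀ hL1 (by omega)
      _ = (x : ℝ) ^ k / L ^ U := by
          rw [e4]
          field_simp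

end Pool.Agent.NH15.CT
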