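import Pool.Agent.NH15.CT.W4

set_option autoImplicit false

/-! The conclusions for one length. -/

namespace Pool.Agent.NH15.CT

open Finset Filter
open Pool.Agent.H373R2.T7
open Pool.Agent.W301.SS
open Pool.Agent.TH646.TT

/-- the number of the primes in the intervals `(a + b i, a + b i + y]`, `i < k` -/
noncomputable def tot (k : ℕ) (b : ℕ → ℕ) (y a : ℕ) : ℝ := ∑ i ∈ range k, (pn (a + b i) y : ℝ)

lemma tot_eq (N k : ℕ) (b : ℕ → ℕ) (g a : ℕ) (hg : 1 ≤ g) :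
    tot k b g a * Real.log N = g * ∑ i ∈ range k, Z N (b i) g a := by
  have hg0 : (0 : ℝ) < g := by exact_mod_cast hg
  unfold tot Z
  rw [sum_mul, mul_sum]
  apply sum_congr rfl
  intro i _
  field_simp

lemma tot_mono (k : ℕ) (b : ℕ → ℕ) (a : ℕ) {y z : ℕ} (h : y ≤ z) : tot k b y a ≤ tot k b z a := by
  unfold tot
  apply sum_le_sum
  intro i _
  exact_mod_cast pn_mono h

/-- the exceptional points for one length -/
noncomputable def RR (ε : ℝ) (N : ℕ) (A : Finset ℕ) (k : ℕ) (b : ℕ → ℕ) (g : ℕ) : Finset ℕ := by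
  classical
  exact A.filter fun a => ε / 2 * (k * g) < |tot k b g a * Real.log N - k * g|

/-- the points with too many primes -/
noncomputable def XX (M : ℝ) (N : ℕ) (k : ℕ) (b : ℕ → ℕ) (g : ℕ) : Finset ℕ := by
  classical
  exact (range k).biUnion fun i => (Icc 1 N).filter fun a => M < Z N (b i) g a

lemma XX_card (M : ℝ) (N : ℕ) (k : ℕ) (b : ℕ → ℕ) (g : ℕ) (e : ℝ)
    (hE : ∀ i < k, ∀ E : Finset ℕ, E ⊆ Icc 1 N → (∀ a ∈ E, M < Z N (b i) g a) → (E.card : ℝ) ≤ e) :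
    ((XX M N k b g).card : ℝ) ≤ k * e := by
  classical
  have h1 : ((XX M N k b g).card : ℝ) ≤ ∑ i ∈ range k, (((Icc 1 N).filter fun a => M < Z N (b i) g a).card : ℝ) := by
    unfold XX
    exact_mod_cast card_biUnion_le
  refine h1.trans ?_
  calc _ ≤ ∑ _i ∈ range k, e := by
        apply sum_le_sum
        intro i hi
        apply hE i (mem_range.1 hi) _ (filter_subset _ _)
        intro a ha
        exact (mem_filter.1 ha).2
    _ = _ := by rw [sum_const, card_range, nsmul_eq_mul]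

lemma eq_of_not (M : ℝ) (N : ℕ) (A : Finset ℕ) (hA : A ⊆ Icc 1 N) (k : ℕ) (b : ℕ → ℕ) (g a : ℕ) (ha : a ∈ A)
    (h : a ∉ XX M N k b g) (i : ℕ) (hi : i < k) : Y M N (b i) g a = Z N (b i) g a := by
  classical
  unfold XX at h
  rw [mem_biUnion] at h
  push Not at h
  have h1 := h i (mem_range.2 hi)
  rw [mem_filter, not_and, not_lt] at h1
  unfold Y
  exact min_eq_left (h1 (hA ha))

lemma RR_sub (ε M : ℝ) (N : ℕ) (A : Finset ℕ) (hA : A ⊆ Icc 1 N) (k : ℕ) (b : ℕ → ℕ) (g : ℕ) (hg : 1 ≤ g) :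
    RR ε N A k b g ⊆ A.filter (fun a => ε / 2 * k < |∑ i ∈ range k, Y M N (b i) g a - k|) ∪ XX M N k b g := by
  classical
  intro a ha
  unfold RR at ha
  rw [mem_filter] at ha
  rw [mem_union]
  by_cases h : a ∈ XX M N k b g
  · exact Or.inr h
  · left
    rw [mem_filter]
    refine ⟨ha.1, ?_⟩
    have hg0 : (0 : ℝ) < g := by exact_mod_cast hg
    have h1 := ha.2
    rw [tot_eq N k b g a hg] at h1
    have e : (g : ℝ) * ∑ i ∈ range k, Z N (b i) g a - k * g = g * (∑ i ∈ range k, Z N (b i) g a - k) := by ring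
    rw [e, abs_mul, abs_of_pos hg0, show ε / 2 * (k * (g : ℝ)) = g * (ε / 2 * k) by ring] at h1
    have h2 := lt_of_mul_lt_mul_left h1 hg0.le
    have h3 : ∑ i ∈ range k, Y M N (b i) g a = ∑ i ∈ range k, Z N (b i) g a := by
      apply sum_congr rfl
      intro i hi
      exact eq_of_not M N A hA k b g a ha.1 h i (mem_range.1 hi)
    rw [h3]
    exact h2

/-- the hypothesis on the tuple of shifts -/
def Hyp (ε M e : ℝ) (N : ℕ) (A : Finset ℕ) (k : ℕ) (b : ℕ → ℕ) (g : ℕ) : Prop :=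
  (∀ (q : Fin 3) (u j : ℕ), u ≤ j → j < k →
    |∑ a ∈ Icc 1 N, wt A (phi (ε / 20) q) (fun i a => Y M N (b i) g a) u j a * (Y M N (b j) g a - 1)| ≤
      (ε / 40) * ∑ a ∈ Icc 1 N, wt A (phi (ε / 20) q) (fun i a => Y M N (b i) g a) u j a + e) ∧
  ∀ i < k, ∀ E : Finset ℕ, E ⊆ Icc 1 N → (∀ a ∈ E, M < Z N (b i) g a) → (E.card : ℝ) ≤ e

/-- short tuples -/
lemma RR_short (ε e : ℝ) (hε : 0 < ε) (hε1 : ε ≤ 1 / 4) (he : 0 ≤ e) (N : ℕ) (A : Finset ℕ)
    (hA : A ⊆ Icc 1 N) (k : ℕ) (b : ℕ → ℕ) (g : ℕ) (hg : 1 ≤ g) (h : Hyp ε (4 + ε) e N A k b g) :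
    ((RR ε N A k b g).card : ℝ) ≤ 2 * Real.exp (-(ε ^ 2 * k / 100)) * A.card +
      (2 * Real.exp (ε / 4 * k) * (k * e) + k * e) := by
  classical
  have h1 := block (Icc 1 N) A hA (fun i a => Y (4 + ε) N (b i) g a) (4 + ε) ε e (by linarith) hε hε1
    (fun i a => Y_nonneg (by linarith) _ _ _ _) (fun i a => Y_le _ _ _ _) he 0 k (Nat.zero_le _)
    (fun q j hj hjk => h.1 q 0 j hj hjk)
  rw [Nat.sub_zero, Nat.Ico_zero_eq_range] at h1
  have h2 := XX_card (4 + ε) N k b g e h.2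
  have h3 : ((RR ε N A k b g).card : ℝ) ≤
      ((A.filter (fun a => ε / 2 * k < |∑ i ∈ range k, Y (4 + ε) N (b i) g a - k|)).card : ℝ) +
      (XX (4 + ε) N k b g).card := by
    exact_mod_cast (card_le_card (RR_sub ε (4 + ε) N A hA k b g hg)).trans (card_union_le _ _)
  linarith

/-- long tuples -/
lemma RR_long (ε e : ℝ) (hε : 0 < ε) (hε1 : ε ≤ 1 / 4) (he : 0 ≤ e) (N : ℕ) (A : Finset ℕ)
    (hA : A ⊆ Icc 1 N) (k k0 : ℕ) (hk0 : 1 ≤ k0) (hk : k0 ≤ k) (b : ℕ → ℕ) (g : ℕ) (hg : 1 ≤ g)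
    (h : Hyp ε (4 + ε) e N A k b g) :
    ((RR ε N A k b g).card : ℝ) ≤ ((k : ℝ) + 1) ^ 2 * (2 * Real.exp (-(ε ^ 2 * k0 / 100)) * A.card +
      2 * Real.exp (ε / 2 * k0) * (2 * k0 * e)) + k * e := by
  classical
  obtain ⟨G, hG⟩ : ∃ G : ℕ → ℕ → Finset ℕ, G = fun u v => if u ≤ v ∧ v ≤ k ∧ k0 ≤ v - u ∧ v - u ≤ 2 * k0 then
      A.filter (fun a => (ε / 2) * (v - u : ℕ) < |∑ i ∈ Ico u v, Y (4 + ε) N (b i) g a - (v - u : ℕ)|)
      else ∅ := ⟨_, rfl⟩
  have hGc : ∀ u v, ((G u v).card : ℝ) ≤ 2 * Real.exp (-(ε ^ 2 * k0 / 100)) * A.card +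
      2 * Real.exp (ε / 2 * k0) * (2 * k0 * e) := by
    intro u v
    rw [hG]
    simp only
    split_ifs with h0
    · obtain ⟨h1, h2, h3, h4⟩ := h0
      have h5 := block (Icc 1 N) A hA (fun i a => Y (4 + ε) N (b i) g a) (4 + ε) ε e (by linarith) hε hε1
        (fun i a => Y_nonneg (by linarith) _ _ _ _) (fun i a => Y_le _ _ _ _) he u v h1
        (fun q j hj hjk => h.1 q u j hj (by omega))
      refine h5.trans ?_
      have h3r : (k0 : ℝ) ≤ ((v - u : ℕ) : ℝ) := by exact_mod_cast h3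
      have h4r : ((v - u : ℕ) : ℝ) ≤ 2 * k0 := by exact_mod_cast h4
      have hε2 : 0 < ε ^ 2 := by positivity
      apply add_le_add
      · apply mul_le_mul_of_nonneg_right _ (Nat.cast_nonneg _)
        apply mul_le_mul_of_nonneg_left _ (by norm_num)
        apply Real.exp_le_exp.2
        have := mul_le_mul_of_nonneg_left h3r hε2.le
        linarith
      · apply mul_le_mul
        · apply mul_le_mul_of_nonneg_left _ (by norm_num)
          apply Real.exp_le_exp.2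
          have := mul_le_mul_of_nonneg_left h4r hε.le
          linarith
        · exact mul_le_mul_of_nonneg_right h4r he
        · positivity
        · positivity
    · rw [card_empty, Nat.cast_zero]
      positivity
  obtain ⟨F, hF⟩ : ∃ F : Finset ℕ, F = (range (k + 1)).biUnion fun u => (range (k + 1)).biUnion fun v => G u v :=
    ⟨_, rfl⟩
  have hFc : (F.card : ℝ) ≤ ((k : ℝ) + 1) ^ 2 * (2 * Real.exp (-(ε ^ 2 * k0 / 100)) * A.card +
      2 * Real.exp (ε / 2 * k0) * (2 * k0 * e)) := by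
    have h1 : F.card ≤ ∑ u ∈ range (k + 1), ∑ v ∈ range (k + 1), (G u v).card := by
      rw [hF]
      exact card_biUnion_le.trans (sum_le_sum fun u _ => card_biUnion_le)
    have h2 : (F.card : ℝ) ≤ ∑ u ∈ range (k + 1), ∑ v ∈ range (k + 1), ((G u v).card : ℝ) := by exact_mod_cast h1
    refine h2.trans ((sum_le_sum fun u _ => sum_le_sum fun v _ => hGc u v).trans (le_of_eq ?_))
    simp only [sum_const, card_range, nsmul_eq_mul]
    push_cast
    ring
  have hsub : RR ε N A k b g ⊆ F ∪ XX (4 + ε) N k b g := by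
    intro a ha
    have h1 := RR_sub ε (4 + ε) N A hA k b g hg ha
    rw [mem_union] at h1 ⊢
    rcases h1 with h1 | h1
    · left
      rw [mem_filter] at h1
      by_contra hcon
      have h2 := long_sum (fun v => ∑ i ∈ range v, Y (4 + ε) N (b i) g a) k0 k (1 - ε / 2) (1 + ε / 2) hk0 (by
        intro u v huv hvk h3 h4
        have h5 : a ∉ G u v := by
          intro h6
          apply hcon
          rw [hF, mem_biUnion]
          refine ⟨u, mem_range.2 (by omega), ?_⟩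
          rw [mem_biUnion]
          exact ⟨v, mem_range.2 (by omega), h6⟩
        rw [hG] at h5
        simp only at h5
        rw [if_pos ⟨huv, hvk, h3, h4⟩, mem_filter, not_and, not_lt] at h5
        have h6 := abs_le.1 (h5 h1.1)
        have h7 : ∑ i ∈ range v, Y (4 + ε) N (b i) g a - ∑ i ∈ range u, Y (4 + ε) N (b i) g a =
            ∑ i ∈ Ico u v, Y (4 + ε) N (b i) g a := by
          rw [sum_Ico_eq_sub _ huv]
        rw [h7]
        constructor <;> linarith [h6.1, h6.2]) k le_rfl hk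
      simp only [range_zero, sum_empty, sub_zero] at h2
      have h3 : |∑ i ∈ range k, Y (4 + ε) N (b i) g a - k| ≤ ε / 2 * k := by
        rw [abs_le]
        constructor <;> linarith [h2.1, h2.2]
      linarith [h1.2]
    · exact Or.inr h1
  have h2 := XX_card (4 + ε) N k b g e h.2
  have h3 : ((RR ε N A k b g).card : ℝ) ≤ (F.card : ℝ) + (XX (4 + ε) N k b g).card := by
    exact_mod_cast (card_le_card hsub).trans (card_union_le _ _)
  linarith

/-- no primes -/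
lemma no_primes (ε e : ℝ) (hε : 0 < ε) (hε1 : ε ≤ 1 / 4) (he : 0 ≤ e) (N : ℕ) (A : Finset ℕ)
    (hA : A ⊆ Icc 1 N) (k : ℕ) (b : ℕ → ℕ) (g y : ℕ) (hgy : g ≤ y)
    (h : Hyp ε (4 + ε) e N A k b g) :
    ((A.filter fun a => ∀ i < k, pn (a + b i) y = 0).card : ℝ) ≤ (3 / 4 + ε) ^ k * A.card + k * e := by
  classical
  have h1 := zeros (Icc 1 N) A hA (fun i a => Y (4 + ε) N (b i) g a) (4 + ε) ε e (ε / 20) le_rfl (by linarith) hε hε1
    (fun i a => Y_nonneg (by linarith) _ _ _ _) (fun i a => Y_le _ _ _ _) he k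
    (fun j hjk => h.1 2 0 j (Nat.zero_le _) hjk)
  refine le_trans ?_ h1
  apply Nat.cast_le.2
  apply card_le_card
  intro a ha
  rw [mem_filter] at ha ⊢
  refine ⟨ha.1, fun i hi => ?_⟩
  have h2 := ha.2 i hi
  have h3 : pn (a + b i) g = 0 := by
    have := pn_mono (n := a + b i) hgy
    omega
  unfold Y Z
  rw [h3]
  simp only [Nat.cast_zero, zero_mul, zero_div]
  exact min_eq_left (by linarith)

/-- between two lengths -/
lemma between (ε : ℝ) (hε : 0 < ε) (hε1 : ε ≤ 1 / 4) (N : ℕ) (hN : 1 ≤ N) (k : ℕ) (b : ℕ → ℕ) (a g0 g1 y : ℕ)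
    (g2 : g0 ≤ y) (g3 : y ≤ g1) (g4 : (g1 : ℝ) ≤ (1 + ε / 8) * y) (g5 : (1 - 2 * (ε / 8)) * y ≤ g0)
    (n1 : |tot k b g0 a * Real.log N - k * g0| ≤ ε / 2 * (k * g0))
    (n2 : |tot k b g1 a * Real.log N - k * g1| ≤ ε / 2 * (k * g1)) :
    |tot k b y a * Real.log N - k * y| ≤ ε * (k * y) := by
  have hℓ : 0 ≤ Real.log N := Real.log_natCast_nonneg N
  have m1 := (abs_le.1 n1).1
  have m2 := (abs_le.1 n2).2
  have c1 := mul_le_mul_of_nonneg_right (tot_mono k b a g2) hℓ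
  have c2 := mul_le_mul_of_nonneg_right (tot_mono k b a g3) hℓ
  obtain ⟨P, hP⟩ : ∃ P : ℝ, P = k * y := ⟨_, rfl⟩
  have hk : (0 : ℝ) ≤ k := Nat.cast_nonneg k
  have hP0 : 0 ≤ P := by rw [hP]; positivity
  have u1 : (k : ℝ) * g1 ≤ (1 + ε / 8) * P := by
    rw [hP]
    calc (k : ℝ) * g1 ≤ k * ((1 + ε / 8) * y) := mul_le_mul_of_nonneg_left g4 hk
      _ = _ := by ring
  have u2 : (1 - 2 * (ε / 8)) * P ≤ (k : ℝ) * g0 := by
    rw [hP]
    calc (1 - 2 * (ε / 8)) * (k * y) = (k : ℝ) * ((1 - 2 * (ε / 8)) * y) := by ring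
      _ ≤ _ := mul_le_mul_of_nonneg_left g5 hk
  have hεP : 0 ≤ ε * P := by positivity
  have hεε : ε * (ε * P) ≤ 1 / 4 * (ε * P) := mul_le_mul_of_nonneg_right hε1 hεP
  have v1 : (1 + ε / 2) * (k * g1) ≤ (1 + ε / 2) * ((1 + ε / 8) * P) :=
    mul_le_mul_of_nonneg_left u1 (by linarith)
  have v2 : (1 - ε / 2) * ((1 - 2 * (ε / 8)) * P) ≤ (1 - ε / 2) * (k * g0) :=
    mul_le_mul_of_nonneg_left u2 (by linarith)
  rw [← hP, abs_le]
  constructor
  · nlinarith
  · nlinarith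

end Pool.Agent.NH15.CT
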