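import Pool.Agent.NH15.CT.W5

set_option autoImplicit false

/-! Almost all the tuples of members of a family of nearly minimal energy are good. -/

namespace Pool.Agent.NH15.CT

open Finset Filter
open Pool.Agent.H373R2.T7
open Pool.Agent.W301.SS
open Pool.Agent.TH646.TT

open Classical in
/-- the conclusions -/
def GoodT (ε : ℝ) (C κ K N : ℕ) (A : Finset ℕ) (k : ℕ) (b : ℕ → ℕ) : Prop :=
  (∀ y : ℕ, Real.log N ^ K ≤ y → y ≤ N →
    ((A.filter fun a => ε * (k * y) < |tot k b y a * Real.log N - k * y|).card : ℝ) ≤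
      4 * Real.exp (-(ε ^ 2 * k / 100)) * A.card + N / Real.log N ^ C ∧
    ((A.filter fun a => ∀ i < k, pn (a + b i) y = 0).card : ℝ) ≤
      (3 / 4 + ε) ^ k * A.card + N / Real.log N ^ C) ∧
  (κ * Real.log (Real.log N) ≤ k → ((A.filter fun a => ¬ ∀ y : ℕ, Real.log N ^ K ≤ y → y ≤ N →
    |tot k b y a * Real.log N - k * y| ≤ ε * (k * y)).card : ℝ) ≤ N / Real.log N ^ C)

lemma ev_LL (c : ℝ) (hc : 0 < c) : ∀ᶠ N : ℕ in atTop, Real.log (Real.log N) ≤ c * Real.log N := by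
  have h1 : ∀ᶠ x : ℝ in atTop, ‖Real.log x‖ ≤ c * ‖x‖ := Real.isLittleO_log_id_atTop.def hc
  have h2 := (Real.tendsto_log_atTop.comp tendsto_natCast_atTop_atTop).eventually h1
  filter_upwards [h2, ev_L 0] with N h3 h4
  simp only [Function.comp_apply, Real.norm_eq_abs] at h3
  rw [abs_of_nonneg h4] at h3
  exact (le_abs_self _).trans h3

theorem final (p B C U : ℕ) (ε : ℝ) (hε : 0 < ε) (hε1 : ε ≤ 1 / 4) :
    ∃ K κ : ℕ, ∀ᶠ N : ℕ in atTop,
    ∀ (x : ℕ) (s : ℕ → ℤ), (∀ m ∈ Icc 1 x, |s m| ≤ B * N) →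
    (energy p x s : ℝ) * N ≤ Real.log N ^ C * (x : ℝ) ^ (2 * p) →
    ∀ A : Finset ℕ, A ⊆ Icc 1 N → ∀ k : ℕ, (k : ℝ) ≤ Real.log N ^ C →
    ∀ S : Finset (Fin k → ℕ), S ⊆ Fintype.piFinset (fun _ => Icc 1 x) →
    (∀ m ∈ S, (∀ i, 0 < s (m i) ∧ s (m i) ≤ N) ∧ ¬ GoodT ε C κ K N A k (sh s k m)) →
    (S.card : ℝ) ≤ (x : ℝ) ^ k / Real.log N ^ U := by
  classical
  obtain ⟨κ, hκ⟩ : ∃ κ : ℕ, 100 * (3 * C + 6) / ε ^ 2 ≤ κ := exists_nat_ge _
  have hε2 : 0 < ε ^ 2 := by positivity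
  rw [div_le_iff₀ hε2] at hκ
  obtain ⟨D, hD⟩ : ∃ D, D = κ + 3 * C + U + 12 := ⟨_, rfl⟩
  obtain ⟨K1, hK1⟩ := tuples p B C C U D ε hε hε1 (by omega)
  obtain ⟨K2, hK2⟩ : ∃ K2, K2 = max K1 (D + 20) := ⟨_, rfl⟩
  obtain ⟨η, hη⟩ : ∃ η, η = ε / 8 := ⟨_, rfl⟩
  have hη0 : 0 < η := by rw [hη]; positivity
  have hη1 : η ≤ 1 / 32 := by rw [hη]; linarith
  have hlr : 0 < Real.log (1 + η) := Real.log_pos (by linarith)
  have hκ0 : (0 : ℝ) ≤ κ := Nat.cast_nonneg κ
  refine ⟨K2 + 1, κ + 1, ?_⟩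
  filter_upwards [hK1, exc D (4 + ε) (by linarith), ev_L (1 / η + 2 / Real.log (1 + η) + 64),
    ev_LL (1 / (4 * (κ + 1))) (by positivity), ev_LL (1 / 4) (by norm_num), eventually_ge_atTop 16] with
    N hT hX hL hLL hLL' hN16 x s hs hE A hA k hk S hS hbad
  have hNr : (16 : ℝ) ≤ N := by exact_mod_cast hN16
  have hN0 : (0 : ℝ) < N := by linarith
  have hAc : (A.card : ℝ) ≤ N := by
    have := card_le_card hA
    rw [Nat.card_Icc, Nat.add_sub_cancel] at this
    exact_mod_cast this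
  obtain ⟨L, hLd⟩ : ∃ L, L = Real.log (N : ℝ) := ⟨_, rfl⟩
  obtain ⟨l2, hl2⟩ : ∃ l2, l2 = Real.log L := ⟨_, rfl⟩
  have hd1 : 0 < 1 / η := by positivity
  have hd2 : 0 < 2 / Real.log (1 + η) := by positivity
  rw [← hLd, ← hl2] at hLL hLL'
  rw [← hLd] at hL
  have hL64 : 64 ≤ L := by linarith
  have hL0 : 0 < L := by linarith
  have hL1 : 1 ≤ L := by linarith
  have hl21 : 1 ≤ l2 := by
    rw [hl2, Real.le_log_iff_exp_le hL0]
    have := Real.exp_one_lt_d9
    linarith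
  have hLpow : ∀ n : ℕ, Real.exp (n * l2) = L ^ n := by
    intro n
    rw [Real.exp_nat_mul, hl2, Real.exp_log hL0]
  -- the number of the lengths
  obtain ⟨J, hJ⟩ : ∃ J : ℕ, J = ⌊L / Real.log (1 + η)⌋₊ + 2 := ⟨_, rfl⟩
  have hJ2 : (J : ℝ) ≤ L ^ 2 := by
    have h4 : (J : ℝ) ≤ L / Real.log (1 + η) + 2 := by
      rw [hJ]; push_cast
      have := Nat.floor_le (show 0 ≤ L / Real.log (1 + η) by positivity)
      linarith
    have h5 : 2 / Real.log (1 + η) ≤ L - 64 := by linarith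
    have h6 : L / Real.log (1 + η) * 2 ≤ L * (L - 64) := by
      calc L / Real.log (1 + η) * 2 = L * (2 / Real.log (1 + η)) := by ring
        _ ≤ _ := mul_le_mul_of_nonneg_left h5 hL0.le
    nlinarith
  rw [← hLd] at hk ⊢
  refine hT x s hs hE A k (by rw [← hLd]; exact hk) J (gr η) (by rw [← hLd]; exact hJ2) S hS ?_ |>.trans
    (le_of_eq (by rw [hLd]))
  intro m hm
  obtain ⟨hpos, hng⟩ := hbad m hm
  refine ⟨hpos, fun hok => hng ?_⟩
  -- the hypothesis for the lengths of the grid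
  obtain ⟨b, hb⟩ : ∃ b, b = sh s k m := ⟨_, rfl⟩
  rw [← hb]
  obtain ⟨e, he⟩ : ∃ e : ℝ, e = N / L ^ D := ⟨_, rfl⟩
  have he0 : 0 ≤ e := by rw [he]; positivity
  have hhyp : ∀ i < J, L ^ K2 ≤ (gr η i : ℝ) → gr η i ≤ 2 * N → Hyp ε (4 + ε) e N A k b (gr η i) := by
    intro i hi h1 h2
    refine ⟨fun q u j huj hjk => ?_, fun j hj E hE1 hE2 => ?_⟩
    · have h3 := hok i hi (by rw [← hLd]; exact (pow_le_pow_right₀ hL1 (by rw [hK2]; exact le_max_left _ _)).trans h1)
        h2 q u ⟨j, hjk⟩ huj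
      unfold Ok ww at h3
      rw [← hb, ← hLd, ← he] at h3
      exact h3
    · have h4 := hpos ⟨j, hj⟩
      have h5 : b j = (s (m ⟨j, hj⟩)).toNat := by
        rw [hb]
        unfold sh
        rw [dif_pos hj]
      have h6 : b j ∈ Icc 1 N := by
        rw [mem_Icc, h5]
        omega
      rw [he, hLd]
      apply hX (b j) h6 (gr η i) _ E hE1 hE2
      rw [← hLd]
      exact (pow_le_pow_right₀ hL1 (by rw [hK2]; exact le_max_right _ _)).trans h1
  -- the length of the blocks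
  obtain ⟨k0, hk0⟩ : ∃ k0 : ℕ, k0 = ⌈(κ : ℝ) * l2⌉₊ + 1 := ⟨_, rfl⟩
  have hk01 : 1 ≤ k0 := by omega
  have hk0l : (κ : ℝ) * l2 ≤ k0 := by
    rw [hk0]
    push_cast
    have := Nat.le_ceil ((κ : ℝ) * l2)
    linarith
  have hk0u : (k0 : ℝ) ≤ κ * l2 + 2 := by
    rw [hk0]
    push_cast
    have := Nat.ceil_lt_add_one (show 0 ≤ (κ : ℝ) * l2 by positivity)
    linarith
  have hk0L : 2 * (k0 : ℝ) ≤ L := by
    have h1 : ((κ : ℝ) + 1) * l2 ≤ L / 4 := by
      have h2 : ((κ : ℝ) + 1) * l2 ≤ ((κ : ℝ) + 1) * (1 / (4 * (κ + 1)) * L) :=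
        mul_le_mul_of_nonneg_left hLL (by positivity)
      have h3 : ((κ : ℝ) + 1) * (1 / (4 * (κ + 1)) * L) = L / 4 := by
        field_simp
      linarith
    nlinarith
  have hexp8 : Real.exp ((k0 : ℝ) / 8) ≤ 2 * L ^ κ := by
    have h1 : (k0 : ℝ) / 8 ≤ κ * l2 + 1 / 4 := by
      have : 0 ≤ (κ : ℝ) * l2 := by positivity
      linarith
    calc Real.exp ((k0 : ℝ) / 8) ≤ Real.exp (κ * l2 + 1 / 4) := Real.exp_le_exp.2 h1
      _ = L ^ κ * Real.exp (1 / 4) := by rw [Real.exp_add, hLpow]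
      _ ≤ L ^ κ * 2 := by
          apply mul_le_mul_of_nonneg_left _ (by positivity)
          have h2 : Real.exp (1 / 4) ≤ Real.exp (Real.log 2) := by
            apply Real.exp_le_exp.2
            have := Real.log_two_gt_d9
            linarith
          rwa [Real.exp_log (by norm_num)] at h2
      _ = _ := mul_comm _ _
  have hexpA : Real.exp (-(ε ^ 2 * k0 / 100)) ≤ 1 / L ^ (3 * C + 6) := by
    rw [← hLpow, one_div, ← Real.exp_neg]
    apply Real.exp_le_exp.2
    apply neg_le_neg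
    push_cast
    have h1 : ε ^ 2 * (κ * l2) ≤ ε ^ 2 * k0 := mul_le_mul_of_nonneg_left hk0l hε2.le
    have h2 : 100 * (3 * (C : ℝ) + 6) * l2 ≤ κ * ε ^ 2 * l2 := mul_le_mul_of_nonneg_right hκ (by linarith)
    nlinarith
  have hLC : 1 ≤ L ^ C := one_le_pow₀ hL1
  -- powers
  have hpw : ∀ r t : ℕ, r + t ≤ D → L ^ r * e ≤ N / L ^ t := by
    intro r t hrt
    rw [he, ← mul_div_assoc, div_le_div_iff₀ (by positivity) (by positivity)]
    calc L ^ r * N * L ^ t = N * L ^ (r + t) := by rw [pow_add]; ring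
      _ ≤ N * L ^ D := mul_le_mul_of_nonneg_left (pow_le_pow_right₀ hL1 hrt) hN0.le
  have hke : (k : ℝ) * e ≤ L ^ C * e := mul_le_mul_of_nonneg_right hk he0
  -- short tuples
  have hshort : k ≤ 2 * k0 → 2 * Real.exp (ε / 4 * k) * (k * e) + k * e ≤ N / L ^ (C + 1) := by
    intro h
    have hr : (k : ℝ) ≤ 2 * k0 := by exact_mod_cast h
    have h1 : Real.exp (ε / 4 * k) ≤ 2 * L ^ κ := by
      refine le_trans (Real.exp_le_exp.2 ?_) hexp8
      have : ε / 4 * k ≤ 1 / 16 * (2 * k0) := by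
        apply mul_le_mul (by linarith) hr (Nat.cast_nonneg _) (by norm_num)
      linarith
    have hLκ : 1 ≤ L ^ κ := one_le_pow₀ hL1
    calc 2 * Real.exp (ε / 4 * k) * (k * e) + k * e ≤ 2 * (2 * L ^ κ) * (L ^ C * e) + 1 * (L ^ C * e) := by
          rw [one_mul]
          apply add_le_add _ hke
          apply mul_le_mul _ hke (by positivity) (by positivity)
          linarith
      _ = (4 * L ^ κ + 1) * (L ^ C * e) := by ring
      _ ≤ (L ^ κ * L) * (L ^ C * e) := by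
          apply mul_le_mul_of_nonneg_right _ (by positivity)
          nlinarith
      _ = L ^ (κ + C + 1) * e := by ring
      _ ≤ _ := hpw _ _ (by omega)
  -- long tuples
  have hlong : ((k : ℝ) + 1) ^ 2 * (2 * Real.exp (-(ε ^ 2 * k0 / 100)) * A.card +
      2 * Real.exp (ε / 2 * k0) * (2 * k0 * e)) + k * e ≤ N / L ^ (C + 3) := by
    have h1 : ((k : ℝ) + 1) ^ 2 ≤ 4 * L ^ (2 * C) := by
      have : (k : ℝ) + 1 ≤ 2 * L ^ C := by linarith
      calc ((k : ℝ) + 1) ^ 2 ≤ (2 * L ^ C) ^ 2 := pow_le_pow_left₀ (by positivity) this 2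
        _ = 4 * L ^ (2 * C) := by rw [mul_comm 2 C, pow_mul]; ring
    have h2 : 2 * Real.exp (-(ε ^ 2 * k0 / 100)) * A.card ≤ 2 * (1 / L ^ (3 * C + 6)) * N := by
      apply mul_le_mul _ hAc (Nat.cast_nonneg _) (by positivity)
      linarith
    have h3 : 2 * Real.exp (ε / 2 * k0) * (2 * k0 * e) ≤ 2 * (2 * L ^ κ) * (L * e) := by
      apply mul_le_mul _ (mul_le_mul_of_nonneg_right hk0L he0) (by positivity) (by positivity)
      apply mul_le_mul_of_nonneg_left _ (by norm_num)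
      refine le_trans (Real.exp_le_exp.2 ?_) hexp8
      have : (0 : ℝ) ≤ k0 := Nat.cast_nonneg _
      nlinarith
    have p1 : 4 * L ^ (2 * C) * (2 * (1 / L ^ (3 * C + 6)) * N) ≤ N / L ^ (C + 4) := by
      have e1 : 4 * L ^ (2 * C) * (2 * (1 / L ^ (3 * C + 6)) * N) = (8 / L ^ 2) * (N / L ^ (C + 4)) := by
        rw [show 3 * C + 6 = 2 * C + 2 + (C + 4) by ring, pow_add L (2 * C + 2), pow_add L (2 * C)]
        field_simp
        norm_num
      rw [e1]
      have e2 : 8 / L ^ 2 ≤ 1 := by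
        rw [div_le_one (by positivity)]
        nlinarith
      calc 8 / L ^ 2 * (N / L ^ (C + 4)) ≤ 1 * (N / L ^ (C + 4)) :=
            mul_le_mul_of_nonneg_right e2 (by positivity)
        _ = _ := one_mul _
    have p2 : 4 * L ^ (2 * C) * (2 * (2 * L ^ κ) * (L * e)) ≤ N / L ^ (C + 4) := by
      calc 4 * L ^ (2 * C) * (2 * (2 * L ^ κ) * (L * e)) = 16 * L ^ (2 * C + κ + 1) * e := by ring
        _ ≤ L * L ^ (2 * C + κ + 1) * e := by
            apply mul_le_mul_of_nonneg_right _ he0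
            exact mul_le_mul_of_nonneg_right (by linarith) (by positivity)
        _ = L ^ (2 * C + κ + 2) * e := by ring
        _ ≤ _ := hpw _ _ (by omega)
    have p3 : (k : ℝ) * e ≤ N / L ^ (C + 4) := hke.trans (hpw _ _ (by omega))
    have p4 : 3 * (N / L ^ (C + 4)) ≤ N / L ^ (C + 3) := by
      have e1 : N / L ^ (C + 3) = L * (N / L ^ (C + 4)) := by
        rw [show C + 4 = C + 3 + 1 by ring, pow_succ L (C + 3)]
        field_simp
      rw [e1]
      exact mul_le_mul_of_nonneg_right (by linarith) (by positivity)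
    have h4 : ((k : ℝ) + 1) ^ 2 * (2 * Real.exp (-(ε ^ 2 * k0 / 100)) * A.card +
        2 * Real.exp (ε / 2 * k0) * (2 * k0 * e)) ≤
        4 * L ^ (2 * C) * (2 * (1 / L ^ (3 * C + 6)) * N + 2 * (2 * L ^ κ) * (L * e)) := by
      apply mul_le_mul h1 (add_le_add h2 h3) (by positivity) (by positivity)
    rw [mul_add] at h4
    linarith
  have hstep : ∀ t r : ℕ, N / L ^ (t + r + 1) ≤ N / L ^ t / 64 := by
    intro t r
    have e1 : (N : ℝ) / L ^ (t + r + 1) ≤ N / L ^ (t + 1) := by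
      apply div_le_div_of_nonneg_left hN0.le (by positivity)
      exact pow_le_pow_right₀ hL1 (by omega)
    have e2 : (N : ℝ) / L ^ (t + 1) = N / L ^ t / L := by rw [pow_succ, div_div]
    rw [e2] at e1
    refine e1.trans ?_
    apply div_le_div_of_nonneg_left (by positivity) (by norm_num) hL64
  have hpos2 : ∀ t : ℕ, 0 < N / L ^ t := fun t => by positivity
  -- the exceptional sets on the grid
  have hRR : ∀ i < J, L ^ K2 ≤ (gr η i : ℝ) → gr η i ≤ 2 * N →
      ((RR ε N A k b (gr η i)).card : ℝ) ≤ 2 * Real.exp (-(ε ^ 2 * k / 100)) * A.card + N / L ^ (C + 1) ∧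
      (k0 ≤ k → ((RR ε N A k b (gr η i)).card : ℝ) ≤ N / L ^ (C + 3)) := by
    intro i hi h1 h2
    have h3 := hhyp i hi h1 h2
    have hg1 : 1 ≤ gr η i := by
      have : (1 : ℝ) ≤ gr η i := (one_le_pow₀ hL1).trans h1
      exact_mod_cast this
    have h4 : k0 ≤ k → ((RR ε N A k b (gr η i)).card : ℝ) ≤ N / L ^ (C + 3) := fun h =>
      (RR_long ε e hε hε1 he0 N A hA k k0 hk01 h b (gr η i) hg1 h3).trans hlong
    refine ⟨?_, h4⟩
    by_cases h : k ≤ 2 * k0
    · have h5 := RR_short ε e hε hε1 he0 N A hA k b (gr η i) hg1 h3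
      have := hshort h
      linarith
    · have h5 := h4 (by omega)
      have h6 : N / L ^ (C + 3) ≤ N / L ^ (C + 1) := by
        apply div_le_div_of_nonneg_left hN0.le (by positivity)
        exact pow_le_pow_right₀ hL1 (by omega)
      have h7 : 0 ≤ 2 * Real.exp (-(ε ^ 2 * k / 100)) * A.card := by positivity
      linarith
  -- a length between two lengths of the grid
  have hgrid : ∀ y : ℕ, L ^ (K2 + 1) ≤ y → y ≤ N → ∃ j, j + 1 < J ∧ L ^ K2 ≤ (gr η j : ℝ) ∧
      gr η j ≤ y ∧ y ≤ gr η (j + 1) ∧ gr η (j + 1) ≤ 2 * N ∧ (gr η (j + 1) : ℝ) ≤ (1 + ε / 8) * y ∧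
      (1 - 2 * (ε / 8)) * y ≤ gr η j := by
    intro y hy1 hy2
    have hyℓ : L ≤ y := by
      refine le_trans ?_ hy1
      calc L = L ^ 1 := (pow_one _).symm
        _ ≤ L ^ (K2 + 1) := pow_le_pow_right₀ hL1 (by omega)
    have hy0 : (1 : ℝ) ≤ y := by linarith
    obtain ⟨j, g1, g2, g3, g4, g5⟩ := gr_mem hη0 (by linarith) y (by exact_mod_cast hy0)
      (by linarith)
    have hyK : L ^ K2 ≤ (gr η j : ℝ) := by
      refine le_trans ?_ g5
      have h1 : L ^ K2 * L ≤ y := by rw [← pow_succ]; exact hy1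
      have h2 : 0 ≤ L ^ K2 := by positivity
      have h3 : L ^ K2 * 2 ≤ y := by nlinarith
      have h4 : (1 / 2) * (y : ℝ) ≤ (1 - 2 * η) * y := by nlinarith
      linarith
    refine ⟨j, ?_, hyK, g2, g3, ?_, by rw [← hη]; exact g4, by rw [← hη]; exact g5⟩
    · have h1 : (j : ℝ) ≤ L / Real.log (1 + η) := by
        rw [le_div_iff₀ hlr, ← Real.log_pow, hLd]
        apply Real.log_le_log (by positivity)
        refine g1.trans ?_
        exact_mod_cast hy2
      have h2 : j ≤ ⌊L / Real.log (1 + η)⌋₊ := Nat.le_floor h1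
      omega
    · have h1 : (gr η (j + 1) : ℝ) ≤ 2 * N := by
        refine g4.trans ?_
        have : (y : ℝ) ≤ N := by exact_mod_cast hy2
        nlinarith
      exact_mod_cast h1
  have hmem : ∀ y : ℕ, ∀ a ∈ A, ∀ j, gr η j ≤ y → y ≤ gr η (j + 1) → (gr η (j + 1) : ℝ) ≤ (1 + ε / 8) * y →
      (1 - 2 * (ε / 8)) * y ≤ gr η j → a ∉ RR ε N A k b (gr η j) → a ∉ RR ε N A k b (gr η (j + 1)) →
      |tot k b y a * Real.log N - k * y| ≤ ε * (k * y) := by
    intro y a ha j g2 g3 g4 g5 h1 h2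
    unfold RR at h1 h2
    rw [mem_filter, not_and, not_lt] at h1 h2
    exact between ε hε hε1 N (by omega) k b a (gr η j) (gr η (j + 1)) y g2 g3 g4 g5 (h1 ha) (h2 ha)
  refine ⟨fun y hy1 hy2 => ?_, fun hk1 => ?_⟩
  · rw [← hLd] at hy1
    obtain ⟨j, hjJ, g0, g2, g3, g6, g4, g5⟩ := hgrid y hy1 hy2
    have hg2N : gr η j ≤ 2 * N := by omega
    have hgj1 : L ^ K2 ≤ (gr η (j + 1) : ℝ) := by
      refine g0.trans ?_
      exact_mod_cast g2.trans g3
    constructor
    · have r0 := (hRR j (by omega) g0 hg2N).1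
      have r1 := (hRR (j + 1) hjJ hgj1 g6).1
      have hsub : (A.filter fun a => ε * (k * y) < |tot k b y a * Real.log N - k * y|) ⊆
          RR ε N A k b (gr η j) ∪ RR ε N A k b (gr η (j + 1)) := by
        intro a ha
        rw [mem_filter] at ha
        by_contra hcon
        rw [mem_union, not_or] at hcon
        have := hmem y a ha.1 j g2 g3 g4 g5 hcon.1 hcon.2
        linarith [ha.2]
      have h3 : ((A.filter fun a => ε * (k * y) < |tot k b y a * Real.log N - k * y|).card : ℝ) ≤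
          ((RR ε N A k b (gr η j)).card : ℝ) + (RR ε N A k b (gr η (j + 1))).card := by
        exact_mod_cast (card_le_card hsub).trans (card_union_le _ _)
      have h4 := hstep C 0
      rw [add_zero] at h4
      have h5 := hpos2 C
      refine h3.trans ?_
      rw [← hLd]
      linarith
    · have h1 := no_primes ε e hε hε1 he0 N A hA k b (gr η j) y g2 (hhyp j (by omega) g0 hg2N)
      refine h1.trans ?_
      rw [← hLd]
      have : (k : ℝ) * e ≤ N / L ^ C := hke.trans (hpw _ _ (by omega))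
      linarith
  · rw [← hLd] at hk1 ⊢
    rw [← hl2] at hk1
    have hkk0 : k0 ≤ k := by
      have h1 : (k0 : ℝ) ≤ k + 1 := by
        push_cast at hk1
        nlinarith
      have h2 : k0 ≤ k + 1 := by exact_mod_cast h1
      rcases Nat.lt_or_ge k k0 with h3 | h3
      · exfalso
        have h4 : k0 = k + 1 := by omega
        have h5 : (⌈(κ : ℝ) * l2⌉₊ : ℝ) < κ * l2 + 1 := Nat.ceil_lt_add_one (by positivity)
        have h6 : (k : ℝ) = ⌈(κ : ℝ) * l2⌉₊ := by
          have : k = ⌈(κ : ℝ) * l2⌉₊ := by omega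
          exact_mod_cast this
        push_cast at hk1
        have h7 : (κ : ℝ) * l2 + l2 ≤ k := by linarith
        linarith
      · exact h3
    have hsub : (A.filter fun a => ¬ ∀ y : ℕ, L ^ (K2 + 1) ≤ y → y ≤ N →
        |tot k b y a * L - k * y| ≤ ε * (k * y)) ⊆
        (range J).biUnion fun i => if L ^ K2 ≤ (gr η i : ℝ) ∧ gr η i ≤ 2 * N then RR ε N A k b (gr η i) else ∅ := by
      intro a ha
      rw [mem_filter] at ha
      obtain ⟨haA, hay⟩ := ha
      push Not at hay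
      obtain ⟨y, hy1, hy2, hy3⟩ := hay
      obtain ⟨j, hjJ, g0, g2, g3, g6, g4, g5⟩ := hgrid y hy1 hy2
      have hg2N : gr η j ≤ 2 * N := by omega
      have hgj1 : L ^ K2 ≤ (gr η (j + 1) : ℝ) := by
        refine g0.trans ?_
        exact_mod_cast g2.trans g3
      rw [mem_biUnion]
      by_contra hcon
      push Not at hcon
      have c0 := hcon j (mem_range.2 (by omega))
      have c1 := hcon (j + 1) (mem_range.2 hjJ)
      rw [if_pos ⟨g0, hg2N⟩] at c0
      rw [if_pos ⟨hgj1, g6⟩] at c1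
      have := hmem y a haA j g2 g3 g4 g5 c0 c1
      rw [← hLd] at this
      linarith
    have h1 : ((A.filter fun a => ¬ ∀ y : ℕ, L ^ (K2 + 1) ≤ y → y ≤ N →
        |tot k b y a * L - k * y| ≤ ε * (k * y)).card : ℝ) ≤
        ∑ i ∈ range J, ((if L ^ K2 ≤ (gr η i : ℝ) ∧ gr η i ≤ 2 * N then RR ε N A k b (gr η i) else ∅).card : ℝ) := by
      exact_mod_cast (card_le_card hsub).trans card_biUnion_le
    refine h1.trans ?_
    have h2 : ∀ i ∈ range J, (((if L ^ K2 ≤ (gr η i : ℝ) ∧ gr η i ≤ 2 * N then RR ε N A k b (gr η i) else ∅).card : ℕ) : ℝ) ≤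
        N / L ^ (C + 3) := by
      intro i hi
      split_ifs with h3
      · exact (hRR i (mem_range.1 hi) h3.1 h3.2).2 hkk0
      · rw [card_empty, Nat.cast_zero]
        positivity
    refine (sum_le_sum h2).trans ?_
    rw [sum_const, card_range, nsmul_eq_mul]
    calc (J : ℝ) * (N / L ^ (C + 3)) ≤ L ^ 2 * (N / L ^ (C + 3)) := mul_le_mul_of_nonneg_right hJ2 (by positivity)
      _ = N / L ^ (C + 1) := by
          rw [show C + 3 = C + 1 + 2 by ring, pow_add L (C + 1) 2]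
          field_simp
      _ ≤ _ := by
          have h4 := hstep C 0
          rw [add_zero] at h4
          have h5 := hpos2 C
          linarith

end Pool.Agent.NH15.CT
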